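import Mathlib
import Pool.Graph.R_pool_sql_team_seeded_1e53cb71.Helper23K9.LR.Main

set_option autoImplicit false

open MeasureTheory Set Filter Topology
open Pool.Agent.Helper23K9.LR

namespace Pool.Agent.Helper72.LN

section
variable {E : Type*} [NormedAddCommGroup E] [NormedSpace ℝ E]

lemma LK_clm (ξ : E →L[ℝ] ℝ) : LK ‖ξ‖ (fun x => ξ x) := fun x y => by
  rw [← map_sub, dist_eq_norm]
  exact (le_abs_self _).trans (ξ.le_opNorm _)

variable (S : Rel E)

/-- the image of the linear function `ξ`, normalised at the origin -/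
noncomputable def bb (ξ : E →L[ℝ] ℝ) (x : E) : ℝ :=
  Classical.choose (S.tot (fun x => ξ x) ⟨_, LK_clm ξ⟩) x -
    Classical.choose (S.tot (fun x => ξ x) ⟨_, LK_clm ξ⟩) 0

lemma R_bb (ξ : E →L[ℝ] ℝ) : S.R (fun x => ξ x) (bb S ξ) := by
  refine S.congr (Classical.choose_spec (S.tot (fun x => ξ x) ⟨_, LK_clm ξ⟩))
    (fun _ _ => rfl) (fun x y => ?_)
  unfold bb
  ring

lemma bb_zero (ξ : E →L[ℝ] ℝ) : bb S ξ 0 = 0 := by unfold bb; ring

lemma bb_comb (a c : ℝ) (ξ η : E →L[ℝ] ℝ) (x : E) :
    bb S (a • ξ + c • η) x = a * bb S ξ x + c * bb S η x := by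
  have h1 := S.lin (R_bb S ξ) (R_bb S η) a c
  have h2 := R_bb S (a • ξ + c • η)
  have h3 : (fun x => a * ξ x + c * η x) = (fun x => (a • ξ + c • η) x) := by
    funext x
    simp
  rw [h3] at h1
  have h4 := Rel.uniq h2 h1 x 0
  simp only [bb_zero] at h4
  linarith

lemma bb_add (ξ η : E →L[ℝ] ℝ) (x : E) : bb S (ξ + η) x = bb S ξ x + bb S η x := by
  have := bb_comb S 1 1 ξ η x
  simpa using this

lemma bb_sub (ξ η : E →L[ℝ] ℝ) (x : E) : bb S (ξ - η) x = bb S ξ x - bb S η x := by
  have := bb_comb S 1 (-1) ξ η x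
  have e : (1 : ℝ) • ξ + (-1 : ℝ) • η = ξ - η := by
    ext y
    simp [sub_eq_add_neg]
  rw [e] at this
  rw [this]
  ring

lemma bb_smul (a : ℝ) (ξ : E →L[ℝ] ℝ) (x : E) : bb S (a • ξ) x = a * bb S ξ x := by
  have := bb_comb S a 0 ξ ξ x
  simpa using this

lemma LK_bb (ξ : E →L[ℝ] ℝ) : LK ‖ξ‖ (bb S ξ) := (S.iso (R_bb S ξ) _).1 (LK_clm ξ)

lemma LK_bb_add (ξ η : E →L[ℝ] ℝ) : LK ‖ξ + η‖ (fun x => bb S ξ x + bb S η x) := by
  have h := LK_bb S (ξ + η)
  have h3 : bb S (ξ + η) = fun x => bb S ξ x + bb S η x := by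
    funext x
    exact bb_add S ξ η x
  rwa [h3] at h

variable {S}

/-- If `f` is constant on a ball about `x`, then `x` minimises on that ball the preimage `k` of the
hinge of the image of `f`. -/
lemma le_of_const {f g k : E → ℝ} {q K ρ : ℝ} (hR : S.R f g)
    (hk : S.R k (fun x => Rel.hinge q (g x))) (hf : LK K f) {x : E}
    (hc : ∀ y ∈ Metric.ball x ρ, f y = f x) {y : E} (hy : y ∈ Metric.ball x ρ) : k x ≤ k y := by
  rw [Metric.mem_ball] at hy
  obtain ⟨r, hr1, hr2⟩ := exists_between hy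
  have hr0 : 0 < r := lt_of_le_of_lt dist_nonneg hr1
  set L : ℝ := max K 1 with hL
  have hL1 : 1 ≤ L := le_max_right _ _
  have hL0 : 0 < L := by linarith
  set θ : E → ℝ := fun z => max (r + - dist z x) 0 with hθ
  have hθ1 : LK 1 θ := by
    have e1 : LK 1 (fun z : E => dist z x) := fun a b => by
      have := dist_triangle a b x
      linarith
    have e2 : LK 1 (fun z : E => r + - dist z x) := by
      have := e1.neg.add_const r
      intro a b
      have := this a b
      beta_reduce at this ⊢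
      linarith
    have e3 : LK 1 (fun _ : E => (0 : ℝ)) := fun a b => by
      simp
    exact e2.max e3
  set h : E → ℝ := fun z => L * θ z with hh
  have hhL : LK L h := by
    have := hθ1.const_mul L
    rwa [abs_of_pos hL0, mul_one] at this
  have hfL : LK L f := hf.mono (le_max_left _ _)
  have hhf : LK L (fun z => h z + f z) := by
    apply LK_of_local (h := fun z => h z + f z) (hhL.continuous.add hfL.continuous)
    intro z
    by_cases hz : z ∈ Metric.ball x ρ
    · filter_upwards [Metric.isOpen_ball.mem_nhds hz] with w hw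
      rw [hc z hz, hc w hw]
      have := hhL.abs w z
      rwa [add_sub_add_right_eq_sub]
    · have hz' : r < dist z x := by
        rw [Metric.mem_ball, not_lt] at hz
        linarith
      have e0 : ∀ w : E, r < dist w x → h w = 0 := by
        intro w hw
        rw [hh, hθ]
        simp only
        rw [max_eq_right (by linarith), mul_zero]
      have hcont : Continuous (fun w : E => dist w x) := by fun_prop
      filter_upwards [hcont.continuousAt.eventually (lt_mem_nhds hz')] with w hw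
      rw [e0 z hz', e0 w hw, zero_add, zero_add]
      exact hfL.abs w z
  obtain ⟨h', hh'⟩ := S.tot h ⟨L, hhL⟩
  have a1 : LK L h' := (S.iso hh' L).1 hhL
  have a2 : LK L (fun z => h' z + g z) := (S.iso (Rel.add hh' hR) L).1 hhf
  have a3 : LK L (fun z => h' z + Rel.hinge q (g z)) := by
    have a4 := (a2.add_const (-q)).max a1
    have e : (fun z => max (h' z + g z + -q) (h' z)) = fun z => h' z + Rel.hinge q (g z) := by
      funext z
      unfold Rel.hinge
      rcases le_total (g z - q) 0 with h5 | h5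
      · rw [max_eq_right h5, max_eq_right (by linarith)]; ring
      · rw [max_eq_left h5, max_eq_left (by linarith)]; ring
    rwa [e] at a4
  have a5 := (S.iso (Rel.add hh' hk) L).2 a3 x y
  beta_reduce at a5
  have e1 : h x = L * r := by
    rw [hh, hθ]
    simp only [dist_self]
    rw [max_eq_left (by linarith)]
    ring
  have e2 : h y = L * (r - dist y x) := by
    rw [hh, hθ]
    simp only
    rw [max_eq_left (by linarith)]
    ring
  rw [e1, e2, dist_comm x y] at a5
  linarith

/-- the flattened line -/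
noncomputable def flat (t δ u : ℝ) : ℝ := u - (clip (t - δ) (t + δ) u - δ)

lemma LK_flat {t δ : ℝ} (hδ : 0 ≤ δ) : LK 1 (flat t δ) := by
  have hs : Slope (clip (t - δ) (t + δ)) := slope_clip' (by linarith)
  have hs' : Slope (flat t δ) := fun u v huv => by
    have := hs u v huv
    unfold flat
    constructor <;> linarith [this.1, this.2]
  exact hs'.LK

lemma flat_close {t δ : ℝ} (hδ : 0 ≤ δ) (u : ℝ) : |flat t δ u - u| ≤ δ := by
  unfold flat clip Rel.hinge
  rw [abs_le]
  rcases le_total (u - (t - δ)) 0 with h1 | h1 <;> rcases le_total (u - (t + δ)) 0 with h2 | h2 <;>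
  simp only [max_eq_right, max_eq_left, h1, h2] <;> constructor <;> linarith

lemma flat_eq {t δ u : ℝ} (h : |u - t| < δ) : flat t δ u = t := by
  rw [abs_lt] at h
  unfold flat clip Rel.hinge
  rw [max_eq_left (by linarith), max_eq_right (by linarith)]
  ring

/-- locally constant along segments of a hyperplane -/
lemma const_hyper {k : E → ℝ} {ξ : E →L[ℝ] ℝ} {t ρ : ℝ} (hρ : 0 < ρ)
    (h : ∀ z w, ξ z = t → ξ w = t → dist z w < ρ → k z = k w) {x y : E} (hx : ξ x = t) (hy : ξ y = t) :
    k x = k y := by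
  set c : ℝ → E := fun τ => x + τ • (y - x) with hc
  have hcc : Continuous c := by fun_prop
  have hξ : ∀ τ, ξ (c τ) = t := by
    intro τ
    rw [hc]
    simp [hx, hy]
  have hloc : IsLocallyConstant (fun τ => k (c τ)) := by
    rw [IsLocallyConstant.iff_eventually_eq]
    intro τ
    have h1 : ∀ᶠ σ in 𝓝 τ, dist (c σ) (c τ) < ρ := by
      have h2 : Continuous (fun σ => dist (c σ) (c τ)) := by fun_prop
      apply h2.continuousAt.eventually (gt_mem_nhds _)
      beta_reduce
      rw [dist_self]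
      exact hρ
    filter_upwards [h1] with σ hσ
    exact h _ _ (hξ σ) (hξ τ) hσ
  have h3 := hloc.apply_eq_of_isPreconnected isPreconnected_univ (mem_univ (0 : ℝ)) (mem_univ (1 : ℝ))
  have e0 : c 0 = x := by rw [hc]; simp
  have e1 : c 1 = y := by rw [hc]; simp
  simp only [e0, e1] at h3
  exact h3

/-- The ridge property. -/
theorem ridge {ξ : E →L[ℝ] ℝ} {q : ℝ} {k : E → ℝ} (hk : S.R k (fun x => Rel.hinge q (bb S ξ x)))
    {x y : E} (hxy : ξ x = ξ y) : k x = k y := by
  set t := ξ x with ht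
  set δ : ℕ → ℝ := fun n => 1 / ((n : ℝ) + 1) with hδ
  have hδ0 : ∀ n, 0 < δ n := fun n => by rw [hδ]; positivity
  have hδl : Tendsto δ atTop (𝓝 0) := tendsto_one_div_add_atTop_nhds_zero_nat
  set f : ℕ → E → ℝ := fun n z => flat t (δ n) (ξ z) with hf
  have hfL : ∀ n, LK ‖ξ‖ (f n) := by
    intro n
    have := Rel.LK.comp_real zero_le_one (LK_flat (t := t) (hδ0 n).le) (LK_clm ξ)
    rwa [one_mul] at this
  choose g hg using fun n => S.tot (f n) ⟨_, hfL n⟩
  set g' : ℕ → E → ℝ := fun n z => g n z - g n 0 with hg'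
  have hfg' : ∀ n, S.R (f n) (g' n) := fun n => S.congr (hg n) (fun _ _ => rfl) (fun a b => by
    rw [hg']; ring)
  have hg'L : ∀ n, LK ‖ξ‖ (g' n) := fun n => (S.iso (hfg' n) _).1 (hfL n)
  have hhL : ∀ n, LK ‖ξ‖ (fun z => Rel.hinge q (g' n z)) := fun n => by
    have := Rel.LK.comp_real zero_le_one (Rel.LK_hinge_real q) (hg'L n)
    rwa [one_mul] at this
  choose kn hkn using fun n => S.surj (fun z => Rel.hinge q (g' n z)) ⟨_, hhL n⟩
  have hknL : ∀ n, LK ‖ξ‖ (kn n) := fun n => (S.iso (hkn n) _).2 (hhL n)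
  -- each `kn n` is constant on the hyperplane
  have hconst : ∀ n, kn n x = kn n y := by
    intro n
    set ρ : ℝ := δ n / (‖ξ‖ + 1) with hρ
    have hρ0 : 0 < ρ := by
      have := norm_nonneg ξ
      have := hδ0 n
      positivity
    have hball : ∀ z, ξ z = t → ∀ w ∈ Metric.ball z ρ, f n w = f n z := by
      intro z hz w hw
      rw [Metric.mem_ball] at hw
      have h1 : |ξ w - t| < δ n := by
        have h2 := (LK_clm ξ).abs w z
        rw [hz] at h2
        refine lt_of_le_of_lt h2 ?_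
        have h3 : (‖ξ‖ + 1) * ρ = δ n := by
          rw [hρ]
          have := norm_nonneg ξ
          field_simp
        have h4 : ‖ξ‖ * dist w z ≤ ‖ξ‖ * ρ := mul_le_mul_of_nonneg_left hw.le (norm_nonneg _)
        linarith
      rw [hf]
      simp only
      rw [flat_eq h1, flat_eq (by rw [hz, sub_self, abs_zero]; exact hδ0 n)]
    apply const_hyper hρ0 (ξ := ξ) (t := t) _ rfl hxy.symm
    intro z w hz hw hzw
    apply le_antisymm
    · exact le_of_const (hfg' n) (hkn n) (hfL n) (hball z hz) (by rw [Metric.mem_ball, dist_comm]; exact hzw)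
    · exact le_of_const (hfg' n) (hkn n) (hfL n) (hball w hw) (by rw [Metric.mem_ball]; exact hzw)
  -- the limit
  have hflim : ∀ a b, Tendsto (fun n => f n a - f n b) atTop (𝓝 (ξ a - ξ b)) := by
    have h1 : ∀ a, Tendsto (fun n => f n a) atTop (𝓝 (ξ a)) := by
      intro a
      rw [tendsto_iff_dist_tendsto_zero]
      apply squeeze_zero (fun n => dist_nonneg) (fun n => ?_) hδl
      rw [Real.dist_eq]
      exact flat_close (hδ0 n).le _
    exact fun a b => (h1 a).sub (h1 b)
  have hglim := S.cont f g' (fun z => ξ z) (bb S ξ) ‖ξ‖ hfg' hfL (R_bb S ξ) hflim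
  have hglim' : ∀ a, Tendsto (fun n => g' n a) atTop (𝓝 (bb S ξ a)) := by
    intro a
    have h1 := hglim a 0
    rw [bb_zero, sub_zero] at h1
    refine h1.congr (fun n => ?_)
    rw [hg']
    ring
  have hhlim : ∀ a b, Tendsto (fun n => Rel.hinge q (g' n a) - Rel.hinge q (g' n b)) atTop
      (𝓝 (Rel.hinge q (bb S ξ a) - Rel.hinge q (bb S ξ b))) := by
    have hc : Continuous (Rel.hinge q) := (Rel.LK_hinge_real q).continuous
    exact fun a b => ((hc.tendsto _).comp (hglim' a)).sub ((hc.tendsto _).comp (hglim' b))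
  have hklim := S.cont' kn (fun n z => Rel.hinge q (g' n z)) k (fun z => Rel.hinge q (bb S ξ z)) ‖ξ‖ hkn
    hknL hk hhlim x y
  have h0 : (fun n => kn n x - kn n y) = fun _ => (0 : ℝ) := by
    funext n
    rw [hconst n, sub_self]
  rw [h0] at hklim
  have := tendsto_nhds_unique hklim tendsto_const_nhds
  linarith

lemma exists_unit {ξ : E →L[ℝ] ℝ} (hξ : ξ ≠ 0) : ∃ v, ξ v = 1 := by
  obtain ⟨x, hx⟩ : ∃ x, ξ x ≠ 0 := by
    by_contra hcon
    push Not at hcon
    exact hξ (ContinuousLinearMap.ext hcon)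
  refine ⟨(ξ x)⁻¹ • x, ?_⟩
  rw [map_smul, smul_eq_mul, inv_mul_cancel₀ hx]

variable (S)

theorem exists_ridge {ξ : E →L[ℝ] ℝ} (hξ : ξ ≠ 0) (t : ℝ) :
    ∃ F : ℝ → ℝ, S.R (fun x => F (ξ x)) (fun x => Rel.hinge t (bb S ξ x)) := by
  have hL : LK (1 * ‖ξ‖) (fun x => Rel.hinge t (bb S ξ x)) :=
    Rel.LK.comp_real zero_le_one (Rel.LK_hinge_real t) (LK_bb S ξ)
  obtain ⟨f, hf⟩ := S.surj _ ⟨_, hL⟩
  obtain ⟨v, hv⟩ := exists_unit hξ
  refine ⟨fun u => f (u • v), S.congr hf (fun x y => ?_) (fun _ _ => rfl)⟩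
  have h1 : ∀ z : E, f z = f (ξ z • v) := by
    intro z
    apply ridge hf
    rw [map_smul, hv, smul_eq_mul, mul_one]
  rw [h1 x, h1 y]

end

end Pool.Agent.Helper72.LN
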