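import Mathlib
import Pool.Agent.Helper72.LN.Ridge

set_option autoImplicit false

open MeasureTheory Set Filter Topology
open Pool.Agent.Helper23K9.LR

namespace Pool.Agent.Helper72.LN

section
variable {E : Type*} [NormedAddCommGroup E] [NormedSpace ℝ E] {S : Rel E}

lemma LK.nonneg_of_ridge {ξ : E →L[ℝ] ℝ} (hξ : ξ ≠ 0) {K : ℝ} {G : ℝ → ℝ} (h : LK K (fun x : E => G (ξ x))) :
    0 ≤ K := by
  obtain ⟨v₀, hv₀⟩ := exists_unit hξ
  have h1 := h v₀ 0
  have h2 := h 0 v₀
  rw [dist_comm] at h2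
  beta_reduce at h1 h2
  have h3 : 0 < dist v₀ 0 := by
    rw [dist_pos]
    rintro rfl
    simp at hv₀
  nlinarith

lemma LK_of_ridge {ξ : E →L[ℝ] ℝ} (hξ : ξ ≠ 0) {K : ℝ} {G : ℝ → ℝ}
    (h : LK (K * ‖ξ‖) (fun x : E => G (ξ x))) : LK K G := fun u v => by
  have hn : 0 < ‖ξ‖ := norm_pos_iff.2 hξ
  have hK0 : 0 ≤ K * ‖ξ‖ := LK.nonneg_of_ridge hξ h
  have hK : 0 ≤ K := nonneg_of_mul_nonneg_left hK0 hn
  -- for each `c < ‖ξ‖`
  have key : ∀ c : ℝ, 0 < c → c < ‖ξ‖ → G u - G v ≤ K * ‖ξ‖ * (dist u v / c) := by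
    intro c hc hcξ
    obtain ⟨x, hx1, hx2⟩ := ξ.exists_lt_apply_of_lt_opNorm hcξ
    rw [Real.norm_eq_abs] at hx2
    have hx0 : ξ x ≠ 0 := by
      intro h0
      rw [h0, abs_zero] at hx2
      linarith
    set w : E := (ξ x)⁻¹ • x with hw
    have hw1 : ξ w = 1 := by rw [hw, map_smul, smul_eq_mul, inv_mul_cancel₀ hx0]
    have hw2 : ‖w‖ ≤ 1 / c := by
      rw [hw, norm_smul, norm_inv, Real.norm_eq_abs, ← div_eq_inv_mul]
      apply div_le_div₀ zero_le_one hx1.le hc hx2.le
    have h1 := h (u • w) (v • w)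
    beta_reduce at h1
    have hin : ∀ s : ℝ, ξ (s • w) = s := fun s => by
      rw [map_smul, hw1, smul_eq_mul, mul_one]
    rw [hin, hin] at h1
    have h2 : dist (u • w) (v • w) = dist u v * ‖w‖ := by
      rw [dist_eq_norm, ← sub_smul, norm_smul, dist_eq_norm]
    rw [h2] at h1
    refine h1.trans ?_
    apply mul_le_mul_of_nonneg_left _ hK0
    rw [div_eq_mul_one_div]
    exact mul_le_mul_of_nonneg_left hw2 dist_nonneg
  have h3 : Tendsto (fun c : ℝ => K * ‖ξ‖ * (dist u v / c)) (𝓝[<] ‖ξ‖) (𝓝 (K * ‖ξ‖ * (dist u v / ‖ξ‖))) := by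
    apply Tendsto.mono_left _ nhdsWithin_le_nhds
    apply Tendsto.const_mul
    apply tendsto_const_nhds.div tendsto_id hn.ne'
  have h4 : G u - G v ≤ K * ‖ξ‖ * (dist u v / ‖ξ‖) := by
    apply ge_of_tendsto h3
    filter_upwards [Ioo_mem_nhdsLT hn] with c hc
    exact key c hc.1 hc.2
  have h5 : K * ‖ξ‖ * (dist u v / ‖ξ‖) = K * dist u v := by field_simp
  rwa [h5] at h4

lemma slope_transfer {ξ : E →L[ℝ] ℝ} (hξ : ξ ≠ 0) {G φ : ℝ → ℝ}
    (h : S.R (fun x => G (ξ x)) (fun x => φ (bb S ξ x))) (hφ : Slope φ) : Slope G := by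
  apply slope_of_half
  apply LK_of_ridge hξ
  have h1 := S.lin h (R_bb S ξ) 1 (-(1 / 2))
  have h2 : LK (1 / 2 * ‖ξ‖) (fun x => φ (bb S ξ x) - 1 / 2 * bb S ξ x) :=
    Rel.LK.comp_real (by norm_num : (0 : ℝ) ≤ 1 / 2) (half_of_slope hφ) (LK_bb S ξ)
  have h3 : (fun x => 1 * φ (bb S ξ x) + -(1 / 2) * bb S ξ x) = fun x => φ (bb S ξ x) - 1 / 2 * bb S ξ x := by
    funext x; ring
  have h4 : (fun x => 1 * G (ξ x) + -(1 / 2) * ξ x) =
      fun x => G (ξ x) - 1 / 2 * ξ x := by
    funext x; ring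
  rw [h3, h4] at h1
  exact (S.iso h1 _).2 h2

/-- `D`-property: gluing along a level set -/
lemma glue {b h : E → ℝ} {t L : ℝ} (hb : Continuous b) (h1 : LK L (fun x => h x + Rel.hinge t (b x)))
    (h2 : LK L (fun x => h x + (b x - Rel.hinge t (b x)))) : LK L (fun x => h x + b x) := by
  have key : ∀ x y, t ≤ b x → b y ≤ t → |(h x + b x) - (h y + b y)| ≤ L * dist x y := by
    intro x y hx hy
    -- a point on the segment
    obtain ⟨z, hz, hzt⟩ : ∃ z ∈ segment ℝ y x, b z = t := by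
      have h3 : IsPreconnected (segment ℝ y x) := (convex_segment y x).isPreconnected
      have h4 := h3.intermediate_value (left_mem_segment ℝ y x) (right_mem_segment ℝ y x) hb.continuousOn
      obtain ⟨z, hz, hzt⟩ := h4 ⟨hy, hx⟩
      exact ⟨z, hz, hzt⟩
    have h3 := h1.abs x z
    have h4 := h2.abs z y
    have h5 : dist x z + dist z y = dist x y := by
      rw [dist_comm x z, dist_comm z y, dist_comm x y, add_comm]
      exact dist_add_dist_of_mem_segment hz
    have e1 : Rel.hinge t (b x) = b x - t := by unfold Rel.hinge; rw [max_eq_left (by linarith)]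
    have e2 : Rel.hinge t (b z) = 0 := by unfold Rel.hinge; rw [hzt]; simp
    have e3 : Rel.hinge t (b y) = 0 := by unfold Rel.hinge; rw [max_eq_right (by linarith)]
    rw [e1, e2] at h3
    rw [e2, e3] at h4
    calc |(h x + b x) - (h y + b y)| = |(h x + (b x - t) - (h z + 0)) + (h z + (b z - 0) - (h y + (b y - 0)))| := by
          rw [hzt]; congr 1; ring
      _ ≤ L * dist x z + L * dist z y := (abs_add_le _ _).trans (add_le_add h3 h4)
      _ = L * dist x y := by rw [← h5]; ring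
  intro x y
  beta_reduce
  rcases le_total t (b x) with hx | hx <;> rcases le_total t (b y) with hy | hy
  · have h3 := h1 x y
    beta_reduce at h3
    unfold Rel.hinge at h3
    rw [max_eq_left (by linarith), max_eq_left (by linarith)] at h3
    linarith
  · exact (le_abs_self _).trans (key x y hx hy)
  · have := key y x hy hx
    rw [abs_sub_comm, dist_comm] at this
    exact (le_abs_self _).trans this
  · have h3 := h2 x y
    beta_reduce at h3
    unfold Rel.hinge at h3
    rw [max_eq_right (by linarith), max_eq_right (by linarith)] at h3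
    linarith

/-- the slopes are `0` or `1` -/
lemma slope01 {ξ : E →L[ℝ] ℝ} (hξ : ξ ≠ 0) {t : ℝ} {F : ℝ → ℝ}
    (hF : S.R (fun x => F (ξ x)) (fun x => Rel.hinge t (bb S ξ x))) :
    ∀ᵐ u, deriv F u = 0 ∨ deriv F u = 1 := by
  apply deriv_zero_or_one (slope_transfer hξ hF (slope_hinge t))
  intro H L hH h1 h2
  obtain ⟨K, hK⟩ := hH
  have hK0 : LK (|K| * ‖ξ‖) (fun x : E => H (ξ x)) :=
    Rel.LK.comp_real (abs_nonneg K) (hK.mono (le_abs_self K)) (LK_clm ξ)
  obtain ⟨h, hh⟩ := S.tot _ ⟨_, hK0⟩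
  have hL : 0 ≤ L := by
    have := h1 1 0
    have h3 := h1 0 1
    rw [Real.dist_eq] at this h3
    norm_num at this h3
    linarith
  have g1 : LK (L * ‖ξ‖) (fun x => h x + Rel.hinge t (bb S ξ x)) := by
    refine (S.iso (Rel.add hh hF) _).1 ?_
    exact Rel.LK.comp_real hL h1 (LK_clm ξ)
  have g2 : LK (L * ‖ξ‖) (fun x => h x + (bb S ξ x - Rel.hinge t (bb S ξ x))) := by
    refine (S.iso (Rel.add hh (Rel.sub (R_bb S ξ) hF)) _).1 ?_
    have := Rel.LK.comp_real hL h2 (LK_clm ξ)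
    have e : (fun x : E => H (ξ x) + (ξ x - F (ξ x))) =
      fun x => H (ξ x) + ξ x - F (ξ x) := by funext x; ring
    rwa [e]
  have g3 := glue (LK_bb S ξ).continuous g1 g2
  exact LK_of_ridge hξ ((S.iso (Rel.add hh (R_bb S ξ)) _).2 g3)

variable (S)

/-- Local data for a functional. -/
structure Data (S : Rel E) (ξ : E →L[ℝ] ℝ) where
  F : ℝ → ℝ → ℝ
  hF : ∀ t, S.R (fun x => F t (ξ x)) (fun x => Rel.hinge t (bb S ξ x))
  hS : ∀ t, Slope (F t)
  B : ℝ → ℝ
  hB : Measurable B
  D : Set ℝ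
  hD : ∀ᵐ u, u ∈ D
  one : ∀ u ∈ D, ∀ q : ℚ, (q : ℝ) < B u → HasDerivAt (F q) 1 u
  zero : ∀ u ∈ D, ∀ q : ℚ, B u < (q : ℝ) → HasDerivAt (F q) 0 u

theorem exists_data {ξ : E →L[ℝ] ℝ} (hξ : ξ ≠ 0) : Nonempty (Data S ξ) := by
  obtain ⟨v₀, hv₀⟩ := exists_unit hξ
  choose F hF using fun t => exists_ridge S hξ t
  have hS : ∀ t, Slope (F t) := fun t => slope_transfer hξ (hF t) (slope_hinge t)
  have hSd : ∀ s t, s ≤ t → Slope (fun u => F s u - F t u) := fun s t hst =>
    slope_transfer (G := fun u => F s u - F t u) (φ := fun u => Rel.hinge s u - Rel.hinge t u) hξ (Rel.sub (hF s) (hF t)) (slope_clip hst)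
  have h01 : ∀ t, ∀ᵐ u, deriv (F t) u = 0 ∨ deriv (F t) u = 1 := fun t => slope01 hξ (hF t)
  have hin : ∀ w : ℝ, ξ (w • v₀) = w := fun w => by
    rw [map_smul, hv₀, smul_eq_mul, mul_one]
  -- limits
  have lim1 : ∀ u v, Tendsto (fun n : ℕ => F (-(n : ℝ)) u - F (-(n : ℝ)) v) atTop (𝓝 (u - v)) := by
    intro u v
    have h1 := S.cont' (fun n x => F (-(n : ℝ)) (ξ x)) (fun n x => Rel.hinge (-(n : ℝ)) (bb S ξ x))
      (fun x => (ξ x)) (bb S ξ) ‖ξ‖ (fun n => hF _) (fun n => by
        have := Rel.LK.comp_real zero_le_one (hS (-(n : ℝ))).LK (LK_clm ξ)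
        rwa [one_mul] at this) (R_bb S ξ) (fun x y => by
          apply tendsto_const_nhds.congr'
          obtain ⟨N, hN⟩ := exists_nat_ge (max |bb S ξ x| |bb S ξ y|)
          filter_upwards [eventually_ge_atTop N] with n hn
          have hn' : (N : ℝ) ≤ n := by exact_mod_cast hn
          have e1 : -(n : ℝ) ≤ bb S ξ x := by
            have := (abs_le.1 ((le_max_left _ _).trans (hN.trans hn'))).1
            exact this
          have e2 : -(n : ℝ) ≤ bb S ξ y := by
            have := (abs_le.1 ((le_max_right _ _).trans (hN.trans hn'))).1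
            exact this
          unfold Rel.hinge
          rw [max_eq_left (by linarith), max_eq_left (by linarith)]
          ring) (u • v₀) (v • v₀)
    simp only [hin] at h1
    exact h1
  have lim2 : ∀ u v, Tendsto (fun n : ℕ => F (n : ℝ) u - F (n : ℝ) v) atTop (𝓝 0) := by
    intro u v
    have hR0 : S.R (fun _ => (0 : ℝ)) (fun _ => (0 : ℝ)) := by
      have := Rel.smul (R_bb S ξ) 0
      simpa using this
    have h1 := S.cont' (fun n x => F (n : ℝ) (ξ x)) (fun n x => Rel.hinge (n : ℝ) (bb S ξ x))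
      (fun _ => 0) (fun _ => 0) ‖ξ‖ (fun n => hF _) (fun n => by
        have := Rel.LK.comp_real zero_le_one (hS (n : ℝ)).LK (LK_clm ξ)
        rwa [one_mul] at this) hR0 (fun x y => by
          apply tendsto_const_nhds.congr'
          obtain ⟨N, hN⟩ := exists_nat_ge (max |bb S ξ x| |bb S ξ y|)
          filter_upwards [eventually_ge_atTop N] with n hn
          have hn' : (N : ℝ) ≤ n := by exact_mod_cast hn
          have e1 : bb S ξ x ≤ n := (abs_le.1 ((le_max_left _ _).trans (hN.trans hn'))).2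
          have e2 : bb S ξ y ≤ n := (abs_le.1 ((le_max_right _ _).trans (hN.trans hn'))).2
          unfold Rel.hinge
          rw [max_eq_right (by linarith), max_eq_right (by linarith)]) (u • v₀) (v • v₀)
    simp only [hin, sub_zero] at h1
    exact h1
  have hone := Rel.ae_exists_one (F := fun n : ℕ => F (-(n : ℝ))) (fun n => hS _) (fun n => h01 _) lim1
  have hzero : ∀ᵐ u, ∃ n : ℕ, deriv (F (n : ℝ)) u = 0 := by
    have h1 := Rel.ae_exists_one (F := fun (n : ℕ) u => u - F (n : ℝ) u)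
      (fun n => fun u v huv => by
        have := hS (n : ℝ) u v huv
        beta_reduce
        constructor <;> linarith [this.1, this.2])
      (fun n => by
        filter_upwards [h01 (n : ℝ), (hS (n : ℝ)).ae_hasDerivAt] with u h1 h2
        have h3 : HasDerivAt (fun u => u - F (n : ℝ) u) (1 - deriv (F (n : ℝ)) u) u :=
          (hasDerivAt_id u).sub h2
        rw [h3.deriv]
        rcases h1 with h1 | h1
        · right; rw [h1]; ring
        · left; rw [h1]; ring)
      (fun u v => by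
        have := (tendsto_const_nhds (x := u - v)).sub (lim2 u v)
        rw [sub_zero] at this
        refine this.congr (fun n => ?_)
        ring)
    have h2 : ∀ᵐ u, ∀ n : ℕ, HasDerivAt (F (n : ℝ)) (deriv (F (n : ℝ)) u) u := by
      rw [ae_all_iff]; intro n; exact (hS (n : ℝ)).ae_hasDerivAt
    filter_upwards [h1, h2] with u h3 h4
    obtain ⟨n, hn⟩ := h3
    refine ⟨n, ?_⟩
    have h5 : HasDerivAt (fun u => u - F (n : ℝ) u) (1 - deriv (F (n : ℝ)) u) u :=
      (hasDerivAt_id u).sub (h4 n)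
    rw [h5.deriv] at hn
    linarith
  -- the good set
  have hgood : ∀ᵐ u, (∀ q : ℚ, HasDerivAt (F q) (deriv (F q) u) u ∧
      (deriv (F q) u = 0 ∨ deriv (F q) u = 1)) ∧ (∃ n : ℕ, deriv (F (-(n : ℝ))) u = 1) ∧
      ∃ n : ℕ, deriv (F (n : ℝ)) u = 0 := by
    have h1 : ∀ᵐ u, ∀ q : ℚ, HasDerivAt (F q) (deriv (F q) u) u ∧
      (deriv (F q) u = 0 ∨ deriv (F q) u = 1) := by
      rw [ae_all_iff]; intro q; exact ((hS q).ae_hasDerivAt).and (h01 q)
    exact h1.and (hone.and hzero)
  obtain ⟨D, hDm, hDg, hDn⟩ : ∃ D : Set ℝ, MeasurableSet D ∧ (∀ u ∈ D, (∀ q : ℚ, HasDerivAt (F q) (deriv (F q) u) u ∧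
      (deriv (F q) u = 0 ∨ deriv (F q) u = 1)) ∧ (∃ n : ℕ, deriv (F (-(n : ℝ))) u = 1) ∧
      ∃ n : ℕ, deriv (F (n : ℝ)) u = 0) ∧ ∀ᵐ u, u ∈ D := by
    obtain ⟨T, hT1, hT2, hT3⟩ := exists_measurable_superset_of_null (ae_iff.1 hgood)
    refine ⟨Tᶜ, hT2.compl, ?_, ?_⟩
    · intro u hu
      by_contra hcon
      exact hu (hT1 hcon)
    · rw [ae_iff]
      simpa using hT3
  -- monotonicity
  have hmono : ∀ u ∈ D, ∀ q r : ℚ, q ≤ r → deriv (F r) u ≤ deriv (F q) u := by
    intro u hu q r hqr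
    have h1 := ((hDg u hu).1 q).1
    have h2 := ((hDg u hu).1 r).1
    have h3 : HasDerivAt (fun u => F q u - F r u) (deriv (F q) u - deriv (F r) u) u := h1.sub h2
    have h4 := (hSd q r (by exact_mod_cast hqr)).deriv_nonneg u
    rw [h3.deriv] at h4
    linarith
  classical
  set A : ℝ → Set ℝ := fun u => {t | ∃ q : ℚ, (q : ℝ) = t ∧ deriv (F q) u = 1} with hA
  have hAne : ∀ u ∈ D, (A u).Nonempty := by
    intro u hu
    obtain ⟨n, hn⟩ := (hDg u hu).2.1
    refine ⟨-(n : ℝ), -(n : ℚ), by push_cast; rfl, ?_⟩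
    push_cast
    exact hn
  have hAbd : ∀ u ∈ D, BddAbove (A u) := by
    intro u hu
    obtain ⟨n, hn⟩ := (hDg u hu).2.2
    refine ⟨n, ?_⟩
    rintro t ⟨q, rfl, hq⟩
    by_contra hcon
    push Not at hcon
    have h1 := hmono u hu (n : ℚ) q (by
      have : ((n : ℚ) : ℝ) ≤ (q : ℝ) := by push_cast; exact hcon.le
      exact_mod_cast this)
    push_cast at h1
    rw [hq, hn] at h1
    linarith
  set B : ℝ → ℝ := fun u => if u ∈ D then sSup (A u) else 0 with hB
  have hBm : Measurable B := by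
    apply measurable_of_Ioi
    intro a
    have : B ⁻¹' Ioi a = (D ∩ ⋃ q : {q : ℚ // a < (q : ℝ)}, {u | deriv (F (q : ℚ)) u = 1}) ∪
        (if a < 0 then Dᶜ else ∅) := by
      ext u
      rw [mem_preimage, mem_Ioi, hB]
      simp only [mem_union, mem_inter_iff, mem_iUnion, mem_setOf_eq]
      by_cases hu : u ∈ D
      · rw [if_pos hu]
        constructor
        · intro h
          left
          refine ⟨hu, ?_⟩
          obtain ⟨t, ⟨q, rfl, hq⟩, hat⟩ := exists_lt_of_lt_csSup (hAne u hu) h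
          exact ⟨⟨q, hat⟩, hq⟩
        · rintro (⟨_, ⟨q, hq⟩, hq1⟩ | h)
          · exact hq.trans_le (le_csSup (hAbd u hu) ⟨q, rfl, hq1⟩)
          · exfalso
            split_ifs at h
            · exact h hu
            · exact h
      · rw [if_neg hu]
        constructor
        · intro h
          right
          rw [if_pos h]
          exact hu
        · rintro (⟨h, _⟩ | h)
          · exact absurd h hu
          · split_ifs at h with h1
            · exact h1
            · exact absurd h (notMem_empty u)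
    rw [this]
    apply MeasurableSet.union
    · apply hDm.inter
      apply MeasurableSet.iUnion
      intro q
      exact measurableSet_eq_fun (measurable_deriv _) measurable_const
    · split_ifs
      · exact hDm.compl
      · exact MeasurableSet.empty
  refine ⟨⟨F, hF, hS, B, hBm, D, hDn, ?_, ?_⟩⟩
  · intro u hu q hq
    rw [hB] at hq
    simp only [if_pos hu] at hq
    obtain ⟨t, ⟨r, rfl, hr⟩, hqr⟩ := exists_lt_of_lt_csSup (hAne u hu) hq
    have h1 := hmono u hu q r (by exact_mod_cast hqr.le)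
    have h2 := (hDg u hu).1 q
    rcases h2.2 with h3 | h3
    · rw [h3, hr] at h1; linarith
    · rw [← h3]; exact h2.1
  · intro u hu q hq
    rw [hB] at hq
    simp only [if_pos hu] at hq
    have h2 := (hDg u hu).1 q
    rcases h2.2 with h3 | h3
    · rw [← h3]; exact h2.1
    · exfalso
      have := le_csSup (hAbd u hu) (show (q : ℝ) ∈ A u from ⟨q, rfl, h3⟩)
      linarith


end

end Pool.Agent.Helper72.LN
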