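import Mathlib
import Pool.Agent.Helper72.LN.Loc

set_option autoImplicit false

open MeasureTheory Set Filter Topology
open Pool.Agent.Helper23K9.LR

namespace Pool.Agent.Helper72.LN

section
variable {E : Type*} [NormedAddCommGroup E] [NormedSpace ℝ E] (S : Rel E)

/-- Three clips which are never simultaneously active on the side of `bb` cannot be simultaneously active
at `x`, if the sum of the three functionals has a slope larger than the constant `L`. -/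
lemma triple {ξ₁ ξ₂ ξ₃ : E →L[ℝ] ℝ} {L : ℝ} (k1 : LK L (bb S ξ₁)) (k2 : LK L (bb S ξ₂)) (k3 : LK L (bb S ξ₃))
    (k12 : LK L (fun x => bb S ξ₁ x + bb S ξ₂ x)) (k13 : LK L (fun x => bb S ξ₁ x + bb S ξ₃ x))
    (k23 : LK L (fun x => bb S ξ₂ x + bb S ξ₃ x)) (v : E) (hv : L * ‖v‖ < ξ₁ v + ξ₂ v + ξ₃ v)
    (D₁ : Data S ξ₁) (D₂ : Data S ξ₂) (D₃ : Data S ξ₃) (x : E)
    (hx₁ : ξ₁ x ∈ D₁.D) (hx₂ : ξ₂ x ∈ D₂.D) (hx₃ : ξ₃ x ∈ D₃.D)
    {l₁ r₁ l₂ r₂ l₃ r₃ : ℚ} (a₁ : (l₁ : ℝ) < D₁.B (ξ₁ x)) (a₂ : (l₂ : ℝ) < D₂.B (ξ₂ x))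
    (a₃ : (l₃ : ℝ) < D₃.B (ξ₃ x)) (c₁ : D₁.B (ξ₁ x) < (r₁ : ℝ)) (c₂ : D₂.B (ξ₂ x) < (r₂ : ℝ))
    (c₃ : D₃.B (ξ₃ x) < (r₃ : ℝ))
    (hne : ∀ x, bb S ξ₁ x ∈ Icc (l₁ : ℝ) r₁ → bb S ξ₂ x ∈ Icc (l₂ : ℝ) r₂ → bb S ξ₃ x ∈ Icc (l₃ : ℝ) r₃ → False) :
    False := by
  have g1 := three_clips (l₁ := l₁) (r₁ := r₁) (l₂ := l₂) (r₂ := r₂) (l₃ := l₃) (r₃ := r₃)
    k1 k2 k3 k12 k13 k23 (a₁.trans c₁).le (a₂.trans c₂).le (a₃.trans c₃).le hne
  have g2 : S.R (fun x => (D₁.F l₁ (ξ₁ x) - D₁.F r₁ (ξ₁ x)) + (D₂.F l₂ (ξ₂ x) - D₂.F r₂ (ξ₂ x)) +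
      (D₃.F l₃ (ξ₃ x) - D₃.F r₃ (ξ₃ x)))
      (fun x => clip l₁ r₁ (bb S ξ₁ x) + clip l₂ r₂ (bb S ξ₂ x) + clip l₃ r₃ (bb S ξ₃ x)) := by
    unfold clip
    exact Rel.add (Rel.add (Rel.sub (D₁.hF _) (D₁.hF _)) (Rel.sub (D₂.hF _) (D₂.hF _)))
      (Rel.sub (D₃.hF _) (D₃.hF _))
  have g3 := (S.iso g2 L).2 g1
  -- derivatives
  have der : ∀ {ξ : E →L[ℝ] ℝ} (D : Data S ξ) (_ : ξ x ∈ D.D) (l r : ℚ) (_ : (l : ℝ) < D.B (ξ x))
      (_ : D.B (ξ x) < (r : ℝ)),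
      HasDerivAt (fun τ : ℝ => D.F l (ξ (x + τ • v)) - D.F r (ξ (x + τ • v))) (ξ v) 0 := by
    intro ξ D hx l r hl hr
    have e1 := D.one _ hx l hl
    have e2 := D.zero _ hx r hr
    have e3 : HasDerivAt (fun τ : ℝ => ξ (x + τ • v)) (ξ v) 0 := by
      have : (fun τ : ℝ => ξ (x + τ • v)) = fun τ : ℝ => ξ x + τ * ξ v := by
        funext τ
        rw [map_add, map_smul, smul_eq_mul]
      rw [this]
      have h5 : HasDerivAt (fun τ : ℝ => τ * ξ v) (1 * ξ v) 0 :=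
        (hasDerivAt_id (0 : ℝ)).mul_const _
      rw [one_mul] at h5
      exact h5.const_add _
    have e0 : (fun τ : ℝ => ξ (x + τ • v)) 0 = ξ x := by simp
    rw [← e0] at e1 e2
    have e4 := e1.comp (0 : ℝ) e3
    have e5 := e2.comp (0 : ℝ) e3
    have e6 := e4.sub e5
    rw [one_mul, zero_mul, sub_zero] at e6
    exact e6
  have hd := ((der D₁ hx₁ l₁ r₁ a₁ c₁).add (der D₂ hx₂ l₂ r₂ a₂ c₂)).add (der D₃ hx₃ l₃ r₃ a₃ c₃)
  -- upper bound for the derivative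
  have hub : ξ₁ v + ξ₂ v + ξ₃ v ≤ L * ‖v‖ := by
    have h6 := hd.hasDerivWithinAt (s := Ici 0)
    rw [hasDerivWithinAt_iff_tendsto_slope] at h6
    have h7 : (𝓝[Ici 0 \ {0}] (0 : ℝ)).NeBot := by
      have : Ici (0 : ℝ) \ {0} = Ioi 0 := by
        ext τ
        simp only [Set.mem_sdiff, mem_Ici, mem_singleton_iff, mem_Ioi]
        constructor
        · rintro ⟨h1, h2⟩
          exact lt_of_le_of_ne h1 (Ne.symm h2)
        · intro h1
          exact ⟨h1.le, h1.ne'⟩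
      rw [this]; infer_instance
    apply le_of_tendsto h6
    filter_upwards [self_mem_nhdsWithin] with τ hτ
    have hτ0 : 0 < τ := lt_of_le_of_ne hτ.1 (Ne.symm hτ.2)
    have h8 := g3 (x + τ • v) (x + (0 : ℝ) • v)
    have h9 : dist (x + τ • v) (x + (0 : ℝ) • v) = τ * ‖v‖ := by
      rw [dist_eq_norm]
      have : x + τ • v - (x + (0 : ℝ) • v) = τ • v := by rw [zero_smul]; abel
      rw [this, norm_smul, Real.norm_eq_abs, abs_of_pos hτ0]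
    rw [h9] at h8
    rw [slope_def_field, sub_zero, div_le_iff₀ hτ0]
    simp only [Pi.add_apply] at h8 ⊢
    calc _ ≤ L * (τ * ‖v‖) := h8
      _ = L * ‖v‖ * τ := by ring
  linarith

/-- The functional equation. -/
theorem functional {ω η : E →L[ℝ] ℝ} (hη : ‖η‖ < ‖ω‖) (D₁ : Data S (ω + η)) (D₂ : Data S (ω - η))
    (D₃ : Data S ω) {x : E} (h1 : (ω + η) x ∈ D₁.D) (h2 : (ω - η) x ∈ D₂.D) (h3 : ω x ∈ D₃.D) :
    2 * D₃.B (ω x) = D₁.B ((ω + η) x) + D₂.B ((ω - η) x) := by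
  by_contra hcon
  set L : ℝ := 2 * ‖ω‖ + ‖η‖ with hL
  have hω := norm_nonneg ω
  have hη0 := norm_nonneg η
  -- a direction
  obtain ⟨v, hv⟩ : ∃ v, L * ‖v‖ < (ω + η) v + (ω - η) v + ω v := by
    have hlt : L / 3 < ‖ω‖ := by rw [hL]; linarith
    obtain ⟨v, hv1, hv2⟩ := ω.exists_lt_apply_of_lt_opNorm hlt
    have hL0 : 0 ≤ L := by rw [hL]; positivity
    have hLv : L * ‖v‖ ≤ L := by nlinarith
    rw [Real.norm_eq_abs] at hv2
    rcases le_total 0 (ω v) with h | h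
    · rw [abs_of_nonneg h] at hv2
      refine ⟨v, ?_⟩
      simp only [ContinuousLinearMap.add_apply, ContinuousLinearMap.sub_apply]
      linarith
    · rw [abs_of_nonpos h] at hv2
      refine ⟨-v, ?_⟩
      simp only [ContinuousLinearMap.add_apply, ContinuousLinearMap.sub_apply, map_neg, norm_neg]
      linarith
  -- choose the intervals
  set p := D₁.B ((ω + η) x) with hp
  set q := D₂.B ((ω - η) x) with hq
  set r := D₃.B (ω x) with hr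
  set ε := |2 * r - (p + q)| / 4 with hε
  have hε0 : 0 < ε := by
    have : 0 < |2 * r - (p + q)| := abs_pos.2 (sub_ne_zero.2 hcon)
    positivity
  obtain ⟨l₁, a₁, a₁'⟩ := exists_rat_btwn (show p - ε < p by linarith)
  obtain ⟨r₁, c₁, c₁'⟩ := exists_rat_btwn (show p < p + ε by linarith)
  obtain ⟨l₂, a₂, a₂'⟩ := exists_rat_btwn (show q - ε < q by linarith)
  obtain ⟨r₂, c₂, c₂'⟩ := exists_rat_btwn (show q < q + ε by linarith)
  obtain ⟨l₃, a₃, a₃'⟩ := exists_rat_btwn (show r - ε < r by linarith)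
  obtain ⟨r₃, c₃, c₃'⟩ := exists_rat_btwn (show r < r + ε by linarith)
  have n1 : ‖ω + η‖ ≤ L := by have := norm_add_le ω η; linarith
  have n2 : ‖ω - η‖ ≤ L := by have := norm_sub_le ω η; linarith
  have n3 : ‖ω‖ ≤ L := by linarith
  have n12 : ‖(ω + η) + (ω - η)‖ ≤ L := by
    have e : (ω + η) + (ω - η) = (2 : ℝ) • ω := by
      ext y
      simp
      ring
    rw [e, norm_smul, Real.norm_eq_abs, abs_two]
    linarith
  have n13 : ‖(ω + η) + ω‖ ≤ L := by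
    have h4 := norm_add_le (ω + η) ω
    have h5 := norm_add_le ω η
    linarith
  have n23 : ‖(ω - η) + ω‖ ≤ L := by
    have h4 := norm_add_le (ω - η) ω
    have h5 := norm_sub_le ω η
    linarith
  apply triple S ((LK_bb S (ω + η)).mono n1) ((LK_bb S (ω - η)).mono n2) ((LK_bb S ω).mono n3)
    ((LK_bb_add S (ω + η) (ω - η)).mono n12) ((LK_bb_add S (ω + η) ω).mono n13)
    ((LK_bb_add S (ω - η) ω).mono n23) v hv D₁ D₂ D₃ x h1 h2 h3 a₁' a₂' a₃' c₁ c₂ c₃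
  intro z hz1 hz2 hz3
  rw [bb_add] at hz1
  rw [bb_sub] at hz2
  have e1 : |bb S ω z + bb S η z - p| < ε := by
    rw [abs_lt]; constructor <;> linarith [hz1.1, hz1.2]
  have e2 : |bb S ω z - bb S η z - q| < ε := by
    rw [abs_lt]; constructor <;> linarith [hz2.1, hz2.2]
  have e3 : |r - bb S ω z| < ε := by
    rw [abs_lt]; constructor <;> linarith [hz3.1, hz3.2]
  have e7 : |2 * r - (p + q)| = 4 * ε := by rw [hε]; ring
  have e8 : 2 * r - (p + q) = 2 * (r - bb S ω z) + ((bb S ω z + bb S η z - p) + (bb S ω z - bb S η z - q)) := by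
    ring
  have e9 : |2 * r - (p + q)| < 4 * ε := by
    rw [e8]
    rw [abs_lt] at e1 e2 e3 ⊢
    constructor <;> linarith [e1.1, e1.2, e2.1, e2.2, e3.1, e3.2]
  linarith

end

end Pool.Agent.Helper72.LN
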