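import Mathlib
import Pool.Agent.Helper72.LN.Fun

set_option autoImplicit false

open MeasureTheory Set Filter Topology
open Pool.Agent.Helper23K9.LR

namespace Pool.Agent.Helper72.LN

section
variable {E : Type*} [NormedAddCommGroup E] [NormedSpace ℝ E]

/-- the two functionals are independent -/
def Ind (ω η : E →L[ℝ] ℝ) : Prop := ∃ x₁ x₂ : E, ω x₁ = 1 ∧ η x₁ = 0 ∧ ω x₂ = 0 ∧ η x₂ = 1

lemma ind_of_not {ω η : E →L[ℝ] ℝ} (h0 : ω ≠ 0) (h : ∀ a : ℝ, η ≠ a • ω) : Ind ω η := by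
  obtain ⟨v, hv⟩ := exists_unit h0
  obtain ⟨w, hw⟩ : ∃ w, η w - η v * ω w ≠ 0 := by
    by_contra hcon
    push Not at hcon
    apply h (η v)
    ext y
    have := hcon y
    simp
    linarith
  set w' : E := w - ω w • v with hw'
  have e1 : ω w' = 0 := by rw [hw', map_sub, map_smul, hv]; simp
  have e2 : η w' ≠ 0 := by
    rw [hw', map_sub, map_smul, smul_eq_mul]
    intro h1
    apply hw
    linarith
  refine ⟨v - (η v * (η w')⁻¹) • w', (η w')⁻¹ • w', ?_, ?_, ?_, ?_⟩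
  · rw [map_sub, map_smul, e1, hv]; simp
  · rw [map_sub, map_smul, smul_eq_mul, mul_assoc, inv_mul_cancel₀ e2]; ring
  · rw [map_smul, e1, smul_zero]
  · rw [map_smul, smul_eq_mul, inv_mul_cancel₀ e2]

lemma Ind.ne_zero {ω η : E →L[ℝ] ℝ} (h : Ind ω η) : ω ≠ 0 := by
  obtain ⟨x₁, x₂, h1, -⟩ := h
  rintro rfl
  simp at h1

lemma Ind.ne_zero' {ω η : E →L[ℝ] ℝ} (h : Ind ω η) : η ≠ 0 := by
  obtain ⟨x₁, x₂, -, -, -, h1⟩ := h
  rintro rfl
  simp at h1

lemma Ind.line {ω η : E →L[ℝ] ℝ} (h : Ind ω η) (s : ℝ) {r : ℝ} (hr : r ≠ 0) : Ind (ω + s • η) (r • η) := by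
  obtain ⟨x₁, x₂, h1, h2, h3, h4⟩ := h
  refine ⟨x₁, r⁻¹ • (x₂ - s • x₁), ?_, ?_, ?_, ?_⟩
  · simp [h1, h2]
  · simp [h2]
  · simp [h1, h2, h3, h4]
  · simp [h2, h4, hr]

variable (S : Rel E)

lemma affine_pair {ω η : E →L[ℝ] ℝ} (hi : Ind ω η) (hη : ‖η‖ < ‖ω‖) (D₁ : Data S (ω + η))
    (D₂ : Data S (ω - η)) (D₃ : Data S ω) :
    ∃ κ c c' : ℝ, (∀ᵐ u, D₁.B u = κ * u + c) ∧ (∀ᵐ w, D₂.B w = κ * w + c') ∧
      ∀ᵐ s, D₃.B s = κ * s + (c + c') / 2 := by
  have hfe : ∀ u ∈ D₁.D, ∀ w ∈ D₂.D, 1 / 2 * (u + w) ∈ D₃.D →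
      2 * D₃.B (1 / 2 * (u + w)) = D₁.B u + D₂.B w := by
    intro u hu w hw huw
    obtain ⟨x₁, x₂, h1, h2, h3, h4⟩ := hi
    have e1 : (ω + η) (((u + w) / 2) • x₁ + ((u - w) / 2) • x₂) = u := by
      simp [h1, h2, h3, h4]
      ring
    have e2 : (ω - η) (((u + w) / 2) • x₁ + ((u - w) / 2) • x₂) = w := by
      simp [h1, h2, h3, h4]
      ring
    have e3 : ω (((u + w) / 2) • x₁ + ((u - w) / 2) • x₂) = 1 / 2 * (u + w) := by
      simp [h1, h3]
      ring
    have := functional S hη D₁ D₂ D₃ (x := ((u + w) / 2) • x₁ + ((u - w) / 2) • x₂) (by rwa [e1])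
      (by rwa [e2]) (by rwa [e3])
    rwa [e1, e2, e3] at this
  have h2 : (1 / 2 : ℝ) ≠ 0 := by norm_num
  obtain ⟨κ, c, c', h1, h2, h3⟩ := pexider D₁.B D₂.B (fun s => 2 * D₃.B (1 / 2 * s)) D₂.hB
    (by
      have := D₃.hB
      fun_prop)
    (by
      filter_upwards [D₂.hD] with w hw
      filter_upwards [D₁.hD, ae_shift (ae_scale D₃.hD h2) w] with u hu huw
      exact hfe u hu w hw huw)
    (by
      filter_upwards [D₁.hD] with u hu
      filter_upwards [D₂.hD, ae_shift' (ae_scale D₃.hD h2) u] with w hw huw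
      exact hfe u hu w hw huw)
  refine ⟨κ, c, c', h1, h2, ?_⟩
  filter_upwards [ae_scale h3 (two_ne_zero : (2 : ℝ) ≠ 0)] with s hs
  have e : 1 / 2 * (2 * s) = s := by ring
  rw [e] at hs
  linarith

lemma kappa_ne_zero {ξ : E →L[ℝ] ℝ} (hξ : ξ ≠ 0) (D : Data S ξ) {c : ℝ} (h : ∀ᵐ u, D.B u = c) : False := by
  obtain ⟨v₀, hv₀⟩ := exists_unit hξ
  have hin : ∀ w : ℝ, ξ (w • v₀) = w := fun w => by
    rw [map_smul, hv₀, smul_eq_mul, mul_one]
  -- `bb ξ` is not constant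
  obtain ⟨x, y, hxy⟩ : ∃ x y, bb S ξ y < bb S ξ x := by
    by_contra hcon
    push Not at hcon
    have h1 : LK 0 (bb S ξ) := fun x y => by
      have := hcon x y
      linarith
    have h2 := (S.iso (R_bb S ξ) 0).2 h1 ((1 : ℝ) • v₀) ((0 : ℝ) • v₀)
    beta_reduce at h2
    rw [hin, hin] at h2
    linarith
  -- a rational different from `c`
  obtain ⟨t, ht1, ht2, ht3⟩ : ∃ t : ℚ, bb S ξ y < t ∧ (t : ℝ) < bb S ξ x ∧ (t : ℝ) ≠ c := by
    obtain ⟨t, ht1, ht2⟩ := exists_rat_btwn hxy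
    obtain ⟨t', ht1', ht2'⟩ := exists_rat_btwn ht1
    by_cases hc : (t : ℝ) = c
    · exact ⟨t', ht1', ht2'.trans ht2, by rw [← hc]; exact ht2'.ne⟩
    · exact ⟨t, ht1, ht2, hc⟩
  have hS := D.hS t
  rcases lt_or_gt_of_ne ht3 with h3 | h3
  · -- `F t` is the identity up to a constant
    have e1 : ∀ u v, (fun u => D.F t u - u) u = (fun u => D.F t u - u) v := by
      apply const_of_deriv_zero (K := 2)
      · intro u v
        have := hS.LK.abs u v
        rw [Real.dist_eq] at this ⊢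
        have h4 := le_abs_self (D.F t u - D.F t v)
        have h5 := neg_abs_le (u - v)
        linarith
      · filter_upwards [h, D.hD] with u hu huD
        have := (D.one u huD t (by rw [hu]; exact h3)).sub (hasDerivAt_id u)
        rw [sub_self] at this
        exact this
    have h4 : S.R (fun x => ξ x) (fun x => Rel.hinge t (bb S ξ x)) :=
      S.congr (D.hF t) (fun x y => by
        have := e1 (ξ x) (ξ y)
        beta_reduce at this
        linarith) (fun _ _ => rfl)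
    have h5 := Rel.uniq h4 (R_bb S ξ) x y
    beta_reduce at h5
    rw [Rel.hinge_gt ht2, Rel.hinge_lt ht1] at h5
    linarith
  · have e1 : ∀ u v, D.F t u = D.F t v := by
      apply const_of_deriv_zero hS.LK
      filter_upwards [h, D.hD] with u hu huD
      exact D.zero u huD t (by rw [hu]; exact h3)
    have h4 : S.R (fun _ => 0) (fun x => Rel.hinge t (bb S ξ x)) :=
      S.congr (D.hF t) (fun x y => by
        have := e1 (ξ x) (ξ y)
        linarith) (fun _ _ => rfl)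
    have h5 := Rel.uniq h4 (S.R_const 0 0) x y
    beta_reduce at h5
    rw [Rel.hinge_gt ht2, Rel.hinge_lt ht1] at h5
    linarith

/-- the hinge relation -/
def Hin (κ : ℝ) (ξ : E →L[ℝ] ℝ) (c : ℝ) : Prop :=
  ∀ t : ℝ, S.R (fun y => Rel.hinge t (κ * ξ y + c)) (fun y => κ * Rel.hinge t (bb S ξ y))

lemma hin_of_data {ξ : E →L[ℝ] ℝ} (D : Data S ξ) {κ c : ℝ} (hκ : κ ≠ 0)
    (h : ∀ᵐ u, D.B u = κ * u + c) : Hin S κ ξ c := by
  have key : ∀ t : ℚ, S.R (fun y => Rel.hinge t (κ * ξ y + c)) (fun y => κ * Rel.hinge t (bb S ξ y)) := by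
    intro t
    have hS := D.hS t
    have e1 : ∀ u v, (fun u => κ * D.F t u - Rel.hinge t (κ * u + c)) u =
        (fun u => κ * D.F t u - Rel.hinge t (κ * u + c)) v := by
      have k1 : LK (|κ| * 1) (fun u => κ * D.F t u) := hS.LK.const_mul κ
      have k2 : LK (1 * (|κ| * 1)) (fun u : ℝ => Rel.hinge t (κ * u + c)) := by
        apply Rel.LK.comp_real zero_le_one (Rel.LK_hinge_real t)
        apply LK.add_const
        apply LK.const_mul
        intro u v
        rw [Real.dist_eq, one_mul]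
        exact le_abs_self _
      have k3 := k1.add k2.neg
      apply const_of_deriv_zero (K := |κ| * 1 + 1 * (|κ| * 1))
      · intro u v
        have := k3 u v
        beta_reduce at this ⊢
        linarith
      · have h0 : ∀ᵐ u : ℝ, κ * u + c ≠ t := by
          have : {u : ℝ | ¬ (κ * u + c ≠ t)} ⊆ {(t - c) / κ} := by
            intro u hu
            have hu' : κ * u + c = t := by
              by_contra hcon
              exact hu hcon
            rw [mem_singleton_iff]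
            field_simp
            linarith
          rw [ae_iff]
          exact measure_mono_null this (by simp)
        filter_upwards [h, D.hD, h0] with u hu huD hu0
        have d0 : HasDerivAt (fun u => κ * u + c) κ u := by
          have := ((hasDerivAt_id u).const_mul κ).add_const c
          rwa [mul_one] at this
        rcases lt_or_gt_of_ne hu0 with h3 | h3
        · have d1 := (D.zero u huD t (by rw [hu]; exact h3)).const_mul κ
          have d2 : HasDerivAt (fun u => Rel.hinge t (κ * u + c)) 0 u := by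
            apply (hasDerivAt_const u (0 : ℝ)).congr_of_eventuallyEq
            filter_upwards [d0.continuousAt.eventually (gt_mem_nhds h3)] with v hv
            exact Rel.hinge_lt hv
          have d3 := d1.sub d2
          rw [mul_zero, sub_zero] at d3
          exact d3
        · have d1 := (D.one u huD t (by rw [hu]; exact h3)).const_mul κ
          have d2 : HasDerivAt (fun u => Rel.hinge t (κ * u + c)) κ u := by
            apply (d0.sub_const (t : ℝ)).congr_of_eventuallyEq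
            filter_upwards [d0.continuousAt.eventually (lt_mem_nhds h3)] with v hv
            exact Rel.hinge_gt hv
          have d3 := d1.sub d2
          rw [mul_one, sub_self] at d3
          exact d3
    refine S.congr (Rel.smul (D.hF t) κ) (fun x y => ?_) (fun _ _ => rfl)
    have := e1 (ξ x) (ξ y)
    beta_reduce at this
    linarith
  intro t
  obtain ⟨q, _, hq⟩ : ∃ q : ℕ → ℚ, (∀ n, (q n : ℝ) < t) ∧ Tendsto (fun n => (q n : ℝ)) atTop (𝓝 t) := by
    choose q hq1 hq2 using fun n : ℕ => exists_rat_btwn (show t - 1 / ((n : ℝ) + 1) < t by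
      have : 0 < 1 / ((n : ℝ) + 1) := by positivity
      linarith)
    refine ⟨q, hq2, ?_⟩
    have h1 : Tendsto (fun n : ℕ => t - 1 / ((n : ℝ) + 1)) atTop (𝓝 (t - 0)) :=
      tendsto_const_nhds.sub tendsto_one_div_add_atTop_nhds_zero_nat
    rw [sub_zero] at h1
    exact tendsto_of_tendsto_of_tendsto_of_le_of_le h1 tendsto_const_nhds (fun n => (hq1 n).le)
      (fun n => (hq2 n).le)
  refine Rel.closed (K := 1 * (|κ| * ‖ξ‖)) (fun n => key (q n)) (fun n => ?_) (fun x y => ?_) (fun x y => ?_)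
  · apply Rel.LK.comp_real zero_le_one (Rel.LK_hinge_real _)
    exact ((LK_clm ξ).const_mul κ).add_const c
  · exact (Rel.hinge_tendsto hq _).sub (Rel.hinge_tendsto hq _)
  · exact ((Rel.hinge_tendsto hq _).const_mul κ).sub ((Rel.hinge_tendsto hq _).const_mul κ)

variable {S}

lemma hin_neg {κ c : ℝ} {x : E →L[ℝ] ℝ} (h : Hin S κ x c) : Hin S κ (-x) (-c) := by
  intro t
  have hh : ∀ w, Rel.hinge t (-w) = Rel.hinge (-t) w - w - t := by
    intro w
    unfold Rel.hinge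
    rcases le_total (w + t) 0 with h1 | h1
    · rw [max_eq_left (by linarith), max_eq_right (by linarith)]; ring
    · rw [max_eq_right (by linarith), max_eq_left (by linarith)]; ring
  have hb : ∀ y, bb S (-x) y = - bb S x y := by
    intro y
    have := bb_smul S (-1) x y
    have e : (-1 : ℝ) • x = -x := by ext z; simp
    rw [e] at this
    linarith
  refine S.congr (Rel.sub (h (-t)) (Rel.smul (R_bb S x) κ)) (fun y z => ?_) (fun y z => ?_)
  · have e : ∀ y, κ * (-x) y + -c = -(κ * x y + c) := by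
      intro y; simp; ring
    simp only [e, hh]
    ring
  · simp only [hb, hh]
    ring

lemma hin_zero (κ : ℝ) : Hin S κ 0 0 := by
  intro t
  have hb : ∀ y, bb S 0 y = 0 := by
    intro y
    have := bb_smul S 0 0 y
    simpa using this
  refine S.congr (S.R_const 0 0) (fun y z => ?_) (fun y z => ?_)
  · simp
  · simp [hb]

lemma hin_pos {κ c : ℝ} {x : E →L[ℝ] ℝ} (h : Hin S κ x c) {r : ℝ} (hr : 0 < r) : Hin S κ (r • x) (r * c) := by
  intro t
  have hh : ∀ w, Rel.hinge t (r * w) = r * Rel.hinge (t / r) w := by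
    intro w
    unfold Rel.hinge
    rw [mul_max_of_nonneg _ _ hr.le, mul_zero]
    congr 1
    field_simp
  refine S.congr (Rel.smul (h (t / r)) r) (fun y z => ?_) (fun y z => ?_)
  · have e : ∀ y, κ * (r • x) y + r * c = r * (κ * x y + c) := by
      intro y; simp; ring
    simp only [e, hh]
  · simp only [bb_smul, hh]
    ring

lemma hin_smul {κ c : ℝ} {x : E →L[ℝ] ℝ} (h : Hin S κ x c) (r : ℝ) : Hin S κ (r • x) (r * c) := by
  rcases lt_trichotomy r 0 with hr | hr | hr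
  · have := hin_pos (hin_neg h) (neg_pos.2 hr)
    have e : (-r) • (-x) = r • x := by ext z; simp
    rw [e] at this
    have e2 : -r * -c = r * c := by ring
    rwa [e2] at this
  · rw [hr, zero_smul, zero_mul]
    exact hin_zero κ
  · exact hin_pos h hr

lemma hin_uniq {κ c κ' c' : ℝ} {x : E →L[ℝ] ℝ} (hx : x ≠ 0) (hκ : κ ≠ 0) (hκ' : κ' ≠ 0) (h : Hin S κ x c)
    (h' : Hin S κ' x c') : κ = κ' ∧ c = c' := by
  obtain ⟨v₀, hv₀⟩ := exists_unit hx
  have hin : ∀ w : ℝ, x (w • v₀) = w := fun w => by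
    rw [map_smul, hv₀, smul_eq_mul, mul_one]
  have key : ∀ t s s' : ℝ, κ' * Rel.hinge t (κ * s + c) - κ' * Rel.hinge t (κ * s' + c) =
      κ * Rel.hinge t (κ' * s + c') - κ * Rel.hinge t (κ' * s' + c') := by
    intro t s s'
    have h1 := Rel.smul (h t) κ'
    have h2 := Rel.smul (h' t) κ
    have e : (fun y => κ' * (κ * Rel.hinge t (bb S x y))) = fun y => κ * (κ' * Rel.hinge t (bb S x y)) := by
      funext y; ring
    rw [e] at h1
    have h3 := Rel.uniq' h1 h2 (s • v₀) (s' • v₀)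
    simp only [hin] at h3
    exact h3
  have e0 : ∀ s' : ℝ, κ' * s' + c' - (κ * s' + c) = 0 := by
    intro s'
    set e := κ' * s' + c' - (κ * s' + c) with he
    have hk : 0 < κ ^ 2 := by positivity
    have habs : 0 ≤ |κ * κ'| := abs_nonneg _
    have habs1 := le_abs_self (κ * κ')
    have habs2 := neg_abs_le (κ * κ')
    by_contra hcon
    rcases lt_or_gt_of_ne hcon with h0 | h0
    · -- `e < 0`
      set δ := -e / (2 * (|κ * κ'| + 1)) with hδ
      have hδ0 : 0 < δ := by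
        have : 0 < -e := by linarith
        positivity
      have hδ1 : δ * (|κ * κ'| + 1) = -e / 2 := by rw [hδ]; field_simp
      have h1 := key (κ * s' + c) (s' + κ * δ) s'
      have a1 : Rel.hinge (κ * s' + c) (κ * (s' + κ * δ) + c) = κ ^ 2 * δ := by
        rw [Rel.hinge_gt (by nlinarith)]; ring
      have a2 : Rel.hinge (κ * s' + c) (κ * s' + c) = 0 := by unfold Rel.hinge; simp
      have a3 : Rel.hinge (κ * s' + c) (κ' * (s' + κ * δ) + c') = 0 := Rel.hinge_lt (by nlinarith)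
      have a4 : Rel.hinge (κ * s' + c) (κ' * s' + c') = 0 := Rel.hinge_lt (by linarith)
      rw [a1, a2, a3, a4] at h1
      have : κ' * (κ ^ 2 * δ) ≠ 0 := by positivity
      apply this
      linarith
    · set δ := e / (2 * (|κ * κ'| + 1)) with hδ
      have hδ0 : 0 < δ := by positivity
      have hδ1 : δ * (|κ * κ'| + 1) = e / 2 := by rw [hδ]; field_simp
      have h1 := key (κ * s' + c) (s' - κ * δ) s'
      have a1 : Rel.hinge (κ * s' + c) (κ * (s' - κ * δ) + c) = 0 := Rel.hinge_lt (by nlinarith)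
      have a2 : Rel.hinge (κ * s' + c) (κ * s' + c) = 0 := by unfold Rel.hinge; simp
      have a3 : Rel.hinge (κ * s' + c) (κ' * (s' - κ * δ) + c') = κ' * (s' - κ * δ) + c' - (κ * s' + c) :=
        Rel.hinge_gt (by nlinarith)
      have a4 : Rel.hinge (κ * s' + c) (κ' * s' + c') = κ' * s' + c' - (κ * s' + c) := Rel.hinge_gt (by linarith)
      rw [a1, a2, a3, a4] at h1
      have : κ' * (κ ^ 2 * δ) ≠ 0 := by positivity
      apply this
      linarith
  have h0 := e0 0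
  have h1 := e0 1
  constructor <;> linarith

variable (S)

/-- the local statement -/
lemma local_pair {ω η : E →L[ℝ] ℝ} (hi : Ind ω η) (hη : ‖η‖ < ‖ω‖) :
    ∃ κ c₁ c₂ : ℝ, κ ≠ 0 ∧ Hin S κ (ω + η) c₁ ∧ Hin S κ (ω - η) c₂ ∧ Hin S κ ω ((c₁ + c₂) / 2) := by
  have h1 : ω + η ≠ 0 := by
    intro h
    have : ‖ω‖ = ‖η‖ := by
      rw [eq_neg_of_add_eq_zero_left h, norm_neg]
    linarith
  have h2 : ω - η ≠ 0 := by
    intro h
    rw [sub_eq_zero] at h
    rw [h] at hη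
    exact lt_irrefl _ hη
  obtain ⟨D₁⟩ := exists_data S h1
  obtain ⟨D₂⟩ := exists_data S h2
  obtain ⟨D₃⟩ := exists_data S hi.ne_zero
  obtain ⟨κ, c₁, c₂, e1, e2, e3⟩ := affine_pair S hi hη D₁ D₂ D₃
  have hκ : κ ≠ 0 := by
    rintro rfl
    apply kappa_ne_zero S h1 D₁ (c := c₁)
    filter_upwards [e1] with u hu
    rw [hu]; ring
  exact ⟨κ, c₁, c₂, hκ, hin_of_data S D₁ hκ e1, hin_of_data S D₂ hκ e2, hin_of_data S D₃ hκ e3⟩

/-- every nonzero functional has a hinge relation -/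
lemma exists_one (hdim : ∀ ξ : E →L[ℝ] ℝ, ξ ≠ 0 → ∃ η, Ind ξ η) {ξ : E →L[ℝ] ℝ} (hξ : ξ ≠ 0) :
    ∃ κ c : ℝ, κ ≠ 0 ∧ Hin S κ ξ c := by
  obtain ⟨η, hi⟩ := hdim ξ hξ
  have hn : 0 < ‖ξ‖ := norm_pos_iff.2 hξ
  have hn' : 0 < ‖η‖ := norm_pos_iff.2 hi.ne_zero'
  set r : ℝ := ‖ξ‖ / (2 * ‖η‖) with hr
  have hr0 : 0 < r := by positivity
  have h1 := hi.line 0 hr0.ne'
  rw [zero_smul, add_zero] at h1
  obtain ⟨κ, c₁, c₂, hκ, -, -, h4⟩ := local_pair S h1 (by
    rw [norm_smul, Real.norm_eq_abs, abs_of_pos hr0, hr]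
    have : ‖ξ‖ / (2 * ‖η‖) * ‖η‖ = ‖ξ‖ / 2 := by field_simp
    rw [this]
    linarith)
  exact ⟨κ, _, hκ, h4⟩

/-- the statement along a line -/
lemma global_pair (hdim : ∀ ξ : E →L[ℝ] ℝ, ξ ≠ 0 → ∃ η, Ind ξ η) {ω η : E →L[ℝ] ℝ} (hi : Ind ω η) :
    ∃ κ c₁ c₂ : ℝ, κ ≠ 0 ∧ Hin S κ (ω + η) c₁ ∧ Hin S κ (ω - η) c₂ ∧ Hin S κ ω ((c₁ + c₂) / 2) := by
  have hne : ∀ s : ℝ, ω + s • η ≠ 0 := fun s => (hi.line s one_ne_zero).ne_zero
  choose κ φ hκ hH using fun s : ℝ => exists_one S hdim (hne s)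
  obtain ⟨x₁, x₂, h1, h2, -, -⟩ := id hi
  -- lower bound for the norms
  have hlow : ∀ s : ℝ, 1 ≤ ‖ω + s • η‖ * ‖x₁‖ := by
    intro s
    have h3 := (ω + s • η).le_opNorm x₁
    have h4 : (ω + s • η) x₁ = 1 := by simp [h1, h2]
    rw [h4, norm_one] at h3
    exact h3
  have hx₁ : 0 < ‖x₁‖ := by
    rw [norm_pos_iff]
    rintro rfl
    simp at h1
  have hPsmall : ∀ h : ℝ, |h| * ‖η‖ * ‖x₁‖ < 1 → ∀ s, κ (s + h) = κ s ∧ κ (s - h) = κ s ∧
      φ (s + h) + φ (s - h) = 2 * φ s := by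
    intro h hh s
    by_cases h0 : h = 0
    · subst h0
      simp
      ring
    obtain ⟨κ', c₁, c₂, hκ', k1, k2, k3⟩ := local_pair S (hi.line s h0) (by
      rw [norm_smul, Real.norm_eq_abs]
      have := hlow s
      nlinarith)
    have e1 : ω + s • η + h • η = ω + (s + h) • η := by rw [add_smul, add_assoc]
    have e2 : ω + s • η - h • η = ω + (s - h) • η := by ext z; simp; ring
    rw [e1] at k1
    rw [e2] at k2
    obtain ⟨a1, b1⟩ := hin_uniq (hne _) (hκ _) hκ' (hH _) k1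
    obtain ⟨a2, b2⟩ := hin_uniq (hne _) (hκ _) hκ' (hH _) k2
    obtain ⟨a3, b3⟩ := hin_uniq (hne _) (hκ _) hκ' (hH _) k3
    refine ⟨by rw [a1, a3], by rw [a2, a3], ?_⟩
    rw [b1, b2, b3]
    ring
  have hdouble : ∀ h : ℝ, (∀ s, κ (s + h) = κ s ∧ κ (s - h) = κ s ∧ φ (s + h) + φ (s - h) = 2 * φ s) →
      ∀ s, κ (s + 2 * h) = κ s ∧ κ (s - 2 * h) = κ s ∧ φ (s + 2 * h) + φ (s - 2 * h) = 2 * φ s := by
    intro h hh s
    obtain ⟨a1, a2, a3⟩ := hh s
    obtain ⟨b1, b2, b3⟩ := hh (s + h)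
    obtain ⟨c1, c2, c3⟩ := hh (s - h)
    have e1 : s + h + h = s + 2 * h := by ring
    have e2 : s + h - h = s := by ring
    have e3 : s - h + h = s := by ring
    have e4 : s - h - h = s - 2 * h := by ring
    rw [e1] at b1 b3
    rw [e2] at b3
    rw [e3] at c3
    rw [e4] at c2 c3
    exact ⟨by rw [b1, a1], by rw [c2, a2], by linarith⟩
  have hpow : ∀ n : ℕ, ∀ h : ℝ, |h| * ‖η‖ * ‖x₁‖ < 1 → ∀ s, κ (s + 2 ^ n * h) = κ s ∧
      κ (s - 2 ^ n * h) = κ s ∧ φ (s + 2 ^ n * h) + φ (s - 2 ^ n * h) = 2 * φ s := by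
    intro n
    induction n with
    | zero => intro h hh s; simpa using hPsmall h hh s
    | succ n ih =>
      intro h hh
      have := hdouble (2 ^ n * h) (ih h hh)
      intro s
      have e : 2 ^ (n + 1) * h = 2 * (2 ^ n * h) := by ring
      rw [e]
      exact this s
  obtain ⟨n, hn⟩ := exists_nat_gt (‖η‖ * ‖x₁‖)
  have hfin := hpow n ((1 / 2) ^ n) (by
    rw [abs_of_pos (by positivity), mul_assoc]
    have h3 : (n : ℝ) < 2 ^ n := by exact_mod_cast Nat.lt_two_pow_self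
    have h4 : ((1 : ℝ) / 2) ^ n * 2 ^ n = 1 := by
      rw [← mul_pow]; norm_num
    have h5 : (0 : ℝ) < (1 / 2) ^ n := by positivity
    calc (1 / 2) ^ n * (‖η‖ * ‖x₁‖) < (1 / 2) ^ n * 2 ^ n :=
          mul_lt_mul_of_pos_left (hn.trans h3) h5
      _ = 1 := h4) 0
  have e5 : (2 : ℝ) ^ n * (1 / 2) ^ n = 1 := by rw [← mul_pow]; norm_num
  rw [e5, zero_add, zero_sub] at hfin
  obtain ⟨f1, f2, f3⟩ := hfin
  refine ⟨κ 0, φ 1, φ (-1), hκ 0, ?_, ?_, ?_⟩
  · have := hH 1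
    rwa [one_smul, f1] at this
  · have := hH (-1)
    have e6 : ω + (-1 : ℝ) • η = ω - η := by ext z; simp [sub_eq_add_neg]
    rwa [e6, f2] at this
  · have := hH 0
    rw [zero_smul, add_zero] at this
    have e7 : (φ 1 + φ (-1)) / 2 = φ 0 := by linarith
    rwa [e7]

/-- the linear family of hinge relations -/
theorem exists_hin (hdim : ∀ ξ : E →L[ℝ] ℝ, ξ ≠ 0 → ∃ η, Ind ξ η) (hne : ∃ ξ : E →L[ℝ] ℝ, ξ ≠ 0) :
    ∃ (κ : ℝ) (C : (E →L[ℝ] ℝ) →ₗ[ℝ] ℝ), κ ≠ 0 ∧ ∀ ξ, Hin S κ ξ (C ξ) := by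
  obtain ⟨ξ₀, h0⟩ := hne
  obtain ⟨κ, c₀, hκ, hH0⟩ := exists_one S hdim h0
  -- additivity for independent functionals
  have hadd0 : ∀ {ξ₁ ξ₂ : E →L[ℝ] ℝ}, Ind ξ₁ ξ₂ → ∃ κ' c₁ c₂ : ℝ, κ' ≠ 0 ∧ Hin S κ' ξ₁ c₁ ∧ Hin S κ' ξ₂ c₂ ∧
      Hin S κ' (ξ₁ + ξ₂) (c₁ + c₂) := by
    intro ξ₁ ξ₂ hi
    obtain ⟨x₁, x₂, h1, h2, h3, h4⟩ := hi
    have hi' : Ind ((1 / 2 : ℝ) • (ξ₁ + ξ₂)) ((1 / 2 : ℝ) • (ξ₁ - ξ₂)) := by
      refine ⟨x₁ + x₂, x₁ - x₂, ?_, ?_, ?_, ?_⟩
      · simp [h1, h2, h3, h4]; norm_num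
      · simp [h1, h2, h3, h4]
      · simp [h1, h2, h3, h4]
      · simp [h1, h2, h3, h4]; norm_num
    obtain ⟨κ', c₁, c₂, hκ', k1, k2, k3⟩ := global_pair S hdim hi'
    have e1 : (1 / 2 : ℝ) • (ξ₁ + ξ₂) + (1 / 2 : ℝ) • (ξ₁ - ξ₂) = ξ₁ := by
      ext z; simp; ring
    have e2 : (1 / 2 : ℝ) • (ξ₁ + ξ₂) - (1 / 2 : ℝ) • (ξ₁ - ξ₂) = ξ₂ := by
      ext z; simp; ring
    rw [e1] at k1
    rw [e2] at k2
    have k4 := hin_smul k3 2
    have e3 : (2 : ℝ) • ((1 / 2 : ℝ) • (ξ₁ + ξ₂)) = ξ₁ + ξ₂ := by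
      rw [smul_smul]; norm_num
    have e4 : 2 * ((c₁ + c₂) / 2) = c₁ + c₂ := by ring
    rw [e3, e4] at k4
    exact ⟨κ', c₁, c₂, hκ', k1, k2, k4⟩
  have hall : ∀ x, ∃ c, Hin S κ x c := by
    intro x
    by_cases hd : ∃ a : ℝ, x = a • ξ₀
    · obtain ⟨a, rfl⟩ := hd
      exact ⟨a * c₀, hin_smul hH0 a⟩
    · push Not at hd
      obtain ⟨κ', c₁, c₂, hκ', k1, k2, -⟩ := hadd0 (ind_of_not h0 hd)
      obtain ⟨rfl, _⟩ := hin_uniq h0 hκ hκ' hH0 k1
      exact ⟨c₂, k2⟩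
  classical
  choose C₀ hC₀ using hall
  set C : (E →L[ℝ] ℝ) → ℝ := fun x => if x = 0 then 0 else C₀ x with hCdef
  have hC0 : C 0 = 0 := by rw [hCdef]; simp
  have hC : ∀ x, Hin S κ x (C x) := by
    intro x
    rw [hCdef]
    by_cases hx : x = 0
    · simp only [hx, if_true]
      exact hin_zero κ
    · simp only [hx, if_false]
      exact hC₀ x
  have hCu : ∀ x c, Hin S κ x c → (x = 0 → c = 0) → C x = c := by
    intro x c h h'
    by_cases hx : x = 0
    · rw [h' hx, hx, hC0]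
    · exact (hin_uniq hx hκ hκ (hC x) h).2
  have hsmul : ∀ (r : ℝ) x, C (r • x) = r * C x := by
    intro r x
    apply hCu
    · exact hin_smul (hC x) r
    · intro h
      rcases smul_eq_zero.1 h with h | h
      · rw [h, zero_mul]
      · rw [h, hC0, mul_zero]
  have hadd : ∀ x y, C (x + y) = C x + C y := by
    intro x y
    by_cases hx : x = 0
    · rw [hx, hC0, zero_add, zero_add]
    by_cases hd : ∃ a : ℝ, y = a • x
    · obtain ⟨a, rfl⟩ := hd
      have e : x + a • x = (1 + a) • x := by rw [add_smul, one_smul]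
      rw [e, hsmul, hsmul]
      ring
    · push Not at hd
      have hi := ind_of_not hx hd
      obtain ⟨κ', c₁, c₂, hκ', k1, k2, k3⟩ := hadd0 hi
      obtain ⟨rfl, f1⟩ := hin_uniq hx hκ hκ' (hC x) k1
      obtain ⟨_, f2⟩ := hin_uniq hi.ne_zero' hκ hκ (hC y) k2
      rw [f1, f2]
      apply hCu _ _ k3
      intro hxy
      exfalso
      apply hd (-1)
      have := eq_neg_of_add_eq_zero_right hxy
      rw [this]
      ext z
      simp
  exact ⟨κ, { toFun := C, map_add' := hadd, map_smul' := hsmul }, hκ, hC⟩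

end

end Pool.Agent.Helper72.LN
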