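import Mathlib
import Pool.Agent.Helper72.LN.Aff

set_option autoImplicit false

open MeasureTheory Set Filter Topology
open scoped InnerProductSpace ContDiff FourierTransform
open Pool.Agent.Helper23K9.LR

namespace Pool.Agent.Helper72.LN

section
variable {E : Type*} [NormedAddCommGroup E] [NormedSpace ℝ E] {γ : FreeSpace E}

lemma LK_ridge {G : ℝ → ℝ} {B : ℝ} (hB : 0 ≤ B) (hG : LK B G) (ξ : E →L[ℝ] ℝ) :
    LK (B * ‖ξ‖) (fun y => G (ξ y)) := Rel.LK.comp_real hB hG (LK_clm ξ)

lemma ridge_C2 (hγ : ∀ (ξ : E →L[ℝ] ℝ) (t : ℝ), NN γ (fun y => Rel.hinge t (ξ y))) {G G' G'' : ℝ → ℝ}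
    (h1 : ∀ s, HasDerivAt G (G' s) s) (h2 : ∀ s, HasDerivAt G' (G'' s) s) (h3 : Continuous G'') {B : ℝ}
    (hB : ∀ s, |G' s| ≤ B) (ξ : E →L[ℝ] ℝ) : NN γ (fun y => G (ξ y)) := by
  have hB0 : 0 ≤ B := (abs_nonneg _).trans (hB 0)
  have hGL : LK B G := LK_of_deriv h1 hB
  have hmin : ∀ c : ℝ, LK B (fun u => G (min c u)) := by
    intro c u v
    have hm : LK 1 (fun u : ℝ => min c u) := by
      have e1 : LK 1 (fun _ : ℝ => c) := fun u v => by simp
      have e2 : LK 1 (fun u : ℝ => u) := fun u v => by
        rw [Real.dist_eq, one_mul]; exact le_abs_self _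
      exact e1.min e2
    have h5 := hm.abs u v
    have h6 := hGL (min c u) (min c v)
    rw [Real.dist_eq] at h6
    rw [one_mul] at h5
    exact h6.trans (mul_le_mul_of_nonneg_left h5 hB0)
  apply NN.seq (K := B * ‖ξ‖ + B * ‖ξ‖) (f := fun (n : ℕ) y => G (min (n : ℝ) (ξ y)) - G (min (-(n : ℝ)) (ξ y)))
  · intro n
    have hn : (0 : ℝ) ≤ n := Nat.cast_nonneg n
    have e1 : (fun y : E => G (min (n : ℝ) (ξ y)) - G (min (-(n : ℝ)) (ξ y))) = fun y =>
        ((∫ t, G'' t * Rel.hinge t (ξ y) ∂(volume.restrict (Ioc (-(n : ℝ)) n))) -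
        G' n * Rel.hinge n (ξ y)) + G' (-n) * Rel.hinge (-n) (ξ y) := by
      funext y
      have := clamp_identity h1 h2 h3 hn (ξ y)
      rw [intervalIntegral.integral_of_le (by linarith)] at this
      rw [this]
      ring
    rw [e1]
    refine NN.add (NN.sub (NN.int (K := fun t => |G'' t| * (1 * ‖ξ‖)) ?_ ?_ ?_ ?_) ((hγ ξ _).const_mul _)) ((hγ ξ _).const_mul _)
    · have : Continuous (fun t => |G'' t| * (1 * ‖ξ‖)) := by fun_prop
      exact this.integrableOn_Ioc
    · intro t
      exact (LK_ridge zero_le_one (Rel.LK_hinge_real t) ξ).const_mul _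
    · intro y
      have : Continuous (fun t => G'' t * Rel.hinge t (ξ y)) := by
        unfold Rel.hinge
        fun_prop
      exact this.integrableOn_Ioc
    · intro t
      exact (hγ ξ t).const_mul _
  · intro n y z
    have k1 := LK_ridge hB0 (hmin (n : ℝ)) ξ y z
    have k2 := LK_ridge hB0 (hmin (-(n : ℝ))) ξ z y
    rw [dist_comm] at k2
    beta_reduce at k1 k2 ⊢
    linarith
  · intro y z
    apply tendsto_const_nhds.congr'
    obtain ⟨N, hN⟩ := exists_nat_ge (max |ξ y| |ξ z|)
    filter_upwards [eventually_ge_atTop N] with n hn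
    have hn' : (N : ℝ) ≤ n := by exact_mod_cast hn
    have a1 := abs_le.1 ((le_max_left _ _).trans (hN.trans hn'))
    have a2 := abs_le.1 ((le_max_right _ _).trans (hN.trans hn'))
    rw [min_eq_right a1.2, min_eq_right a2.2, min_eq_left a1.1, min_eq_left a2.1]
    ring

variable {H : Type*} [NormedAddCommGroup H] [InnerProductSpace ℝ H] [FiniteDimensional ℝ H]
  [MeasurableSpace H] [BorelSpace H]

/-- the functional `⟪v, A ·⟫` -/
noncomputable def fl (A : E →L[ℝ] H) (v : H) : E →L[ℝ] ℝ := (innerSL ℝ v).comp A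

omit [FiniteDimensional ℝ H] [MeasurableSpace H] [BorelSpace H] in
lemma fl_apply (A : E →L[ℝ] H) (v : H) (y : E) : fl A v y = ⟪v, A y⟫_ℝ := rfl

omit [FiniteDimensional ℝ H] [MeasurableSpace H] [BorelSpace H] in
lemma norm_fl_le (A : E →L[ℝ] H) (v : H) : ‖fl A v‖ ≤ ‖v‖ * ‖A‖ := by
  unfold fl
  refine (ContinuousLinearMap.opNorm_comp_le _ _).trans ?_
  rw [innerSL_apply_norm]

lemma NN_smooth (A : E →L[ℝ] H) (hγ : ∀ (ξ : E →L[ℝ] ℝ) (t : ℝ), NN γ (fun y => Rel.hinge t (ξ y))) {f : H → ℝ}
    (hf : ContDiff ℝ ∞ f) (hc : HasCompactSupport f) : NN γ (fun y => f (A y)) := by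
  have hc' : HasCompactSupport (fun x => (f x : ℂ)) := hc.comp_left (g := fun r : ℝ => (r : ℂ)) Complex.ofReal_zero
  have hf' : ContDiff ℝ ∞ (fun x => (f x : ℂ)) := Complex.ofRealCLM.contDiff.comp hf
  set g : SchwartzMap H ℂ := hc'.toSchwartzMap hf' with hg
  set F : SchwartzMap H ℂ := 𝓕 g with hF
  have inv : ∀ y, f y = ∫ v, (Real.cos (2 * Real.pi * ⟪v, y⟫_ℝ) * (F v).re -
      Real.sin (2 * Real.pi * ⟪v, y⟫_ℝ) * (F v).im) := by
    intro y
    have h1 : 𝓕⁻ F = g := FourierTransform.fourierInv_fourier_eq g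
    have h2 : (𝓕⁻ F : SchwartzMap H ℂ) y = (f y : ℂ) := by rw [h1]; rfl
    rw [SchwartzMap.fourierInv_coe, Real.fourierInv_eq'] at h2
    have hint : Integrable (fun v : H => Complex.exp (↑(2 * Real.pi * ⟪v, y⟫_ℝ) * Complex.I) • F v) := by
      apply F.integrable.norm.mono'
      · apply Continuous.aestronglyMeasurable
        have := F.continuous
        fun_prop
      · filter_upwards with v
        rw [norm_smul, Complex.norm_exp_ofReal_mul_I, one_mul]
    have h3 := congrArg Complex.re h2
    rw [Complex.ofReal_re] at h3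
    rw [← h3, ← Complex.reCLM_apply, ← Complex.reCLM.integral_comp_comm hint]
    apply integral_congr_ae
    filter_upwards with v
    rw [Complex.reCLM_apply, smul_eq_mul, Complex.mul_re, Complex.exp_ofReal_mul_I_re,
      Complex.exp_ofReal_mul_I_im]
  have e : (fun y => f (A y)) = fun y => ∫ v, (Real.cos (2 * Real.pi * fl A v y) * (F v).re -
      Real.sin (2 * Real.pi * fl A v y) * (F v).im) := funext fun y => inv (A y)
  rw [e]
  have hre : ∀ v, |(F v).re| ≤ ‖F v‖ := fun v => Complex.abs_re_le_norm _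
  have him : ∀ v, |(F v).im| ≤ ‖F v‖ := fun v => Complex.abs_im_le_norm _
  have hpi : 0 < Real.pi := Real.pi_pos
  have hder : ∀ (a b : ℝ) (s : ℝ), HasDerivAt (fun s => Real.cos (2 * Real.pi * s) * a - Real.sin (2 * Real.pi * s) * b)
      (-(2 * Real.pi) * Real.sin (2 * Real.pi * s) * a - (2 * Real.pi) * Real.cos (2 * Real.pi * s) * b) s := by
    intro a b s
    have h0 : HasDerivAt (fun s => 2 * Real.pi * s) (2 * Real.pi) s := by
      have := (hasDerivAt_id s).const_mul (2 * Real.pi)
      rwa [mul_one] at this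
    have h5 := ((h0.cos).mul_const a).sub ((h0.sin).mul_const b)
    have e5 : -Real.sin (2 * Real.pi * s) * (2 * Real.pi) * a - Real.cos (2 * Real.pi * s) * (2 * Real.pi) * b =
      -(2 * Real.pi) * Real.sin (2 * Real.pi * s) * a - (2 * Real.pi) * Real.cos (2 * Real.pi * s) * b := by ring
    rw [e5] at h5
    exact h5
  have hder2 : ∀ (a b : ℝ) (s : ℝ), HasDerivAt (fun s => -(2 * Real.pi) * Real.sin (2 * Real.pi * s) * a -
      (2 * Real.pi) * Real.cos (2 * Real.pi * s) * b)
      (-(2 * Real.pi) ^ 2 * Real.cos (2 * Real.pi * s) * a + (2 * Real.pi) ^ 2 * Real.sin (2 * Real.pi * s) * b) s := by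
    intro a b s
    have h0 : HasDerivAt (fun s => 2 * Real.pi * s) (2 * Real.pi) s := by
      have := (hasDerivAt_id s).const_mul (2 * Real.pi)
      rwa [mul_one] at this
    have h5 := (((h0.sin).const_mul (-(2 * Real.pi))).mul_const a).sub (((h0.cos).const_mul (2 * Real.pi)).mul_const b)
    have e5 : -(2 * Real.pi) * (Real.cos (2 * Real.pi * s) * (2 * Real.pi)) * a -
        2 * Real.pi * (-Real.sin (2 * Real.pi * s) * (2 * Real.pi)) * b =
      -(2 * Real.pi) ^ 2 * Real.cos (2 * Real.pi * s) * a + (2 * Real.pi) ^ 2 * Real.sin (2 * Real.pi * s) * b := by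
      ring
    rw [e5] at h5
    exact h5
  have hbd : ∀ (v : H) (s : ℝ), |-(2 * Real.pi) * Real.sin (2 * Real.pi * s) * (F v).re -
      (2 * Real.pi) * Real.cos (2 * Real.pi * s) * (F v).im| ≤ 4 * Real.pi * ‖F v‖ := by
    intro v s
    refine (abs_sub _ _).trans ?_
    rw [abs_mul, abs_mul, abs_mul, abs_mul, abs_neg, abs_of_pos (show 0 < 2 * Real.pi by positivity)]
    have k1 : 2 * Real.pi * |Real.sin (2 * Real.pi * s)| * |(F v).re| ≤ 2 * Real.pi * 1 * ‖F v‖ := by
      gcongr
      · exact Real.abs_sin_le_one _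
      · exact hre v
    have k2 : 2 * Real.pi * |Real.cos (2 * Real.pi * s)| * |(F v).im| ≤ 2 * Real.pi * 1 * ‖F v‖ := by
      gcongr
      · exact Real.abs_cos_le_one _
      · exact him v
    linarith
  refine NN.int (K := fun v => 4 * Real.pi * ‖F v‖ * (‖v‖ * ‖A‖)) ?_ ?_ ?_ ?_
  · have h5 := (F.integrable_pow_mul volume 1).const_mul (4 * Real.pi * ‖A‖)
    refine h5.congr ?_
    filter_upwards with v
    ring
  · intro v
    refine (LK_ridge (by positivity) (LK_of_deriv (hder (F v).re (F v).im) (hbd v)) (fl A v)).mono ?_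
    exact mul_le_mul_of_nonneg_left (norm_fl_le A v) (by positivity)
  · intro y
    apply (F.integrable.norm.const_mul 2).mono'
    · apply Continuous.aestronglyMeasurable
      have := F.continuous
      simp only [fl_apply]
      fun_prop
    · filter_upwards with v
      rw [Real.norm_eq_abs]
      refine (abs_sub _ _).trans ?_
      rw [abs_mul, abs_mul]
      have k1 : |Real.cos (2 * Real.pi * fl A v y)| * |(F v).re| ≤ 1 * ‖F v‖ := by
        gcongr
        · exact Real.abs_cos_le_one _
        · exact hre v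
      have k2 : |Real.sin (2 * Real.pi * fl A v y)| * |(F v).im| ≤ 1 * ‖F v‖ := by
        gcongr
        · exact Real.abs_sin_le_one _
        · exact him v
      linarith
  · intro v
    exact ridge_C2 hγ (hder (F v).re (F v).im) (hder2 (F v).re (F v).im) (by fun_prop) (hbd v) (fl A v)

lemma NN_compact (A : E ≃L[ℝ] H) (hγ : ∀ (ξ : E →L[ℝ] ℝ) (t : ℝ), NN γ (fun y => Rel.hinge t (ξ y)))
    {f : H → ℝ} {K : ℝ} (hcont : Continuous f)
    (hf : LK K (fun y => f (A y))) (hc : HasCompactSupport f) : NN γ (fun y => f (A y)) := by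
  set φ : ℕ → ContDiffBump (0 : H) := fun n =>
    { rIn := 1 / (2 * ((n : ℝ) + 1))
      rOut := 1 / ((n : ℝ) + 1)
      rIn_pos := by positivity
      rIn_lt_rOut := by
        apply one_div_lt_one_div_of_lt (by positivity)
        have : (0 : ℝ) ≤ n := Nat.cast_nonneg n
        linarith } with hφ
  have hr : Tendsto (fun n => (φ n).rOut) atTop (𝓝 0) := tendsto_one_div_add_atTop_nhds_zero_nat
  have hex : ∀ n x, ConvolutionExistsAt ((φ n).normed volume) f x (ContinuousLinearMap.lsmul ℝ ℝ) volume := by
    intro n x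
    apply HasCompactSupport.convolutionExists_left_of_continuous_right
    · exact (φ n).hasCompactSupport_normed
    · exact (φ n).continuous_normed.locallyIntegrable
    · exact hcont
  apply NN.seq (K := K) (f := fun n y => MeasureTheory.convolution ((φ n).normed volume) f (ContinuousLinearMap.lsmul ℝ ℝ) volume (A y))
  · intro n
    apply NN_smooth (A : E →L[ℝ] H) hγ
    · exact (φ n).hasCompactSupport_normed.contDiff_convolution_left _ (φ n).contDiff_normed
        hcont.locallyIntegrable
    · exact HasCompactSupport.convolution _ (φ n).hasCompactSupport_normed hc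
  · intro n x y
    have i1 : ∀ z, Integrable (fun t => (φ n).normed volume t • f (z - t)) volume := fun z => hex n z
    beta_reduce
    rw [convolution_lsmul, convolution_lsmul, ← integral_sub (i1 _) (i1 _)]
    calc ∫ t, ((φ n).normed volume t • f (A x - t) - (φ n).normed volume t • f (A y - t)) ∂volume
        ≤ ∫ t, (φ n).normed volume t * (K * dist x y) := by
          apply integral_mono ((i1 _).sub (i1 _)) ((φ n).integrable_normed.mul_const _)
          intro t
          have h1 := hf (x - A.symm t) (y - A.symm t)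
          rw [dist_sub_right] at h1
          beta_reduce at h1
          rw [map_sub, map_sub, A.apply_symm_apply] at h1
          show (φ n).normed volume t * f (A x - t) - (φ n).normed volume t * f (A y - t) ≤ _
          rw [← mul_sub]
          exact mul_le_mul_of_nonneg_left h1 ((φ n).nonneg_normed t)
      _ = K * dist x y := by
          rw [integral_mul_const, (φ n).integral_normed, one_mul]
  · intro x y
    exact (ContDiffBump.convolution_tendsto_right_of_continuous hr hcont (A x)).sub
      (ContDiffBump.convolution_tendsto_right_of_continuous hr hcont (A y))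

end

section
variable {E : Type*} [NormedAddCommGroup E] [NormedSpace ℝ E] [FiniteDimensional ℝ E] {γ : FreeSpace E}

theorem NN_all (hγ : ∀ (ξ : E →L[ℝ] ℝ) (t : ℝ), NN γ (fun y => Rel.hinge t (ξ y))) {f : E → ℝ} {K : ℝ}
    (hf : LK K f) : NN γ f := by
  -- normalise
  wlog h0 : f 0 = 0 generalizing f
  · have h1 : NN γ (fun x => f x + (- f 0)) := this (hf.add_const _) (by ring)
    exact h1.congr (fun x y => by ring)
  wlog hK : 0 ≤ K generalizing K
  · exact this (K := max K 0) (hf.mono (le_max_left _ _)) (le_max_right _ _)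
  set h : ℕ → E → ℝ := fun n x => max (2 * K * n - K * ‖x‖) 0 with hh
  have hL1 : ∀ n, LK K (h n) := by
    intro n
    have e1 : LK K (fun x : E => 2 * K * n - K * ‖x‖) := by
      intro x y
      have h2 : ‖y‖ - ‖x‖ ≤ dist x y := by
        rw [dist_eq_norm, ← norm_neg (x - y), neg_sub]
        exact norm_sub_norm_le y x
      have h3 := mul_le_mul_of_nonneg_left h2 hK
      linarith
    have e2 : LK K (fun _ : E => (0 : ℝ)) := fun x y => by
      have : 0 ≤ K * dist x y := mul_nonneg hK dist_nonneg
      linarith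
    exact e1.max e2
  apply NN.seq (K := K) (f := fun n x => max (min (f x) (h n x)) (- h n x))
  · intro n
    set A : E ≃L[ℝ] EuclideanSpace ℝ (Fin (Module.finrank ℝ E)) := toEuclidean with hA
    have hLn : LK K (fun x => max (min (f x) (h n x)) (- h n x)) := (hf.min (hL1 n)).max (hL1 n).neg
    have hcs : HasCompactSupport (fun x => max (min (f x) (h n x)) (- h n x)) := by
      apply HasCompactSupport.of_support_subset_isCompact (isCompact_closedBall (0 : E) (2 * n))
      intro x hx
      rw [mem_closedBall_zero_iff]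
      by_contra hcon
      push Not at hcon
      apply hx
      have h2 : h n x = 0 := by
        rw [hh]
        simp only
        apply max_eq_right
        nlinarith
      beta_reduce
      rw [h2, neg_zero]
      exact max_eq_right (min_le_right _ _)
    have key := NN_compact A hγ (f := fun w => (fun x => max (min (f x) (h n x)) (- h n x)) (A.symm w)) (K := K)
      (hLn.continuous.comp A.symm.continuous) (by
        simp only [A.symm_apply_apply]
        exact hLn) (hcs.comp_homeomorph A.symm.toHomeomorph)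
    simp only [A.symm_apply_apply] at key
    exact key
  · intro n
    exact (hf.min (hL1 n)).max (hL1 n).neg
  · intro x y
    have key : ∀ z : E, ∀ᶠ n : ℕ in atTop, max (min (f z) (h n z)) (- h n z) = f z := by
      intro z
      obtain ⟨N, hN⟩ := exists_nat_ge ‖z‖
      filter_upwards [eventually_ge_atTop N] with n hn
      have hn' : (N : ℝ) ≤ n := by exact_mod_cast hn
      have h2 : |f z| ≤ K * ‖z‖ := by
        have := hf.abs z 0
        rwa [h0, sub_zero, dist_zero_right] at this
      have h3 : |f z| ≤ h n z := by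
        rw [hh]
        simp only
        refine le_trans ?_ (le_max_left _ _)
        nlinarith
      rw [abs_le] at h3
      rw [min_eq_left h3.2, max_eq_left h3.1]
    apply tendsto_const_nhds.congr'
    filter_upwards [key x, key y] with n h1 h2
    rw [h1, h2]

theorem eq_zero_of_ridge (hγ : ∀ (ξ : E →L[ℝ] ℝ) (t : ℝ), fn (fun y => Rel.hinge t (ξ y)) γ = 0) : γ = 0 := by
  apply eq_zero_of_fn
  intro f K hf
  exact (NN_all (fun ξ t => ⟨⟨_, LK_ridge zero_le_one (Rel.LK_hinge_real t) ξ⟩, hγ ξ t⟩) hf).2

end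

end Pool.Agent.Helper72.LN
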