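import Mathlib
import Pool.Agent.Helper72.LN.Sep

set_option autoImplicit false

open MeasureTheory Set Filter Topology
open Pool.Agent.Helper23K9.LR

namespace Pool.Agent.Helper72.LN

section
variable {E : Type*} [NormedAddCommGroup E] [NormedSpace ℝ E] [FiniteDimensional ℝ E]

/-- finite-dimensional reflexivity -/
lemma exists_rep (L : (E →L[ℝ] ℝ) →ₗ[ℝ] ℝ) : ∃ p : E, ∀ ξ : E →L[ℝ] ℝ, ξ p = L ξ := by
  set e : Module.Dual ℝ E ≃ₗ[ℝ] (E →L[ℝ] ℝ) := LinearMap.toContinuousLinearMap with he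
  refine ⟨(Module.evalEquiv ℝ E).symm (L.comp e.toLinearMap), fun ξ => ?_⟩
  have h1 : (Module.evalEquiv ℝ E) ((Module.evalEquiv ℝ E).symm (L.comp e.toLinearMap)) (e.symm ξ) =
      L ξ := by
    rw [LinearEquiv.apply_symm_apply]
    simp
  rw [Module.evalEquiv_apply] at h1
  exact h1

theorem exists_psi (hdim : ∀ ξ : E →L[ℝ] ℝ, ξ ≠ 0 → ∃ η, Ind ξ η) (hne : ∃ ξ : E →L[ℝ] ℝ, ξ ≠ 0)
    (T : FreeSpace E ≃ₗᵢ[ℝ] FreeSpace E) :
    ∃ (κ : ℝ) (Ψ : E → E), κ ≠ 0 ∧ ∀ p q, T (mol p q) = κ • mol (Ψ p) (Ψ q) := by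
  obtain ⟨κ, C, hκ, hH⟩ := exists_hin (relOf T) hdim hne
  set S := relOf T with hS
  have hex : ∀ p : E, ∃ ψ : E, ∀ ξ : E →L[ℝ] ℝ, ξ ψ = κ⁻¹ * (bb S ξ p - C ξ) := by
    intro p
    obtain ⟨ψ, hψ⟩ := exists_rep (E := E)
      { toFun := fun ξ => κ⁻¹ * (bb S ξ p - C ξ)
        map_add' := fun ξ η => by rw [bb_add, map_add]; ring
        map_smul' := fun r ξ => by
          rw [bb_smul, map_smul, smul_eq_mul, smul_eq_mul, RingHom.id_apply]; ring }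
    exact ⟨ψ, hψ⟩
  choose Ψ hΨ using hex
  have hb : ∀ (ξ : E →L[ℝ] ℝ) p, bb S ξ p = κ * ξ (Ψ p) + C ξ := by
    intro ξ p
    rw [hΨ]
    field_simp
    ring
  refine ⟨κ, Ψ, hκ, fun p q => ?_⟩
  rw [← sub_eq_zero]
  apply eq_zero_of_ridge
  intro x t
  have hK := LK_ridge zero_le_one (Rel.LK_hinge_real t) x
  have h1 := hH (κ⁻¹ • x) (t + C (κ⁻¹ • x))
  have e1 : ∀ y : E, κ * (κ⁻¹ • x) y = x y := by
    intro y
    simp
    field_simp
  have e2 : (fun y : E => Rel.hinge (t + C (κ⁻¹ • x)) (κ * (κ⁻¹ • x) y + C (κ⁻¹ • x))) =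
      fun y => Rel.hinge t (x y) := by
    funext y
    rw [e1]
    unfold Rel.hinge
    congr 1
    ring
  have e3 : ∀ y : E, Rel.hinge (t + C (κ⁻¹ • x)) (bb S (κ⁻¹ • x) y) = Rel.hinge t (x (Ψ y)) := by
    intro y
    rw [hb, e1]
    unfold Rel.hinge
    congr 1
    ring
  rw [e2] at h1
  simp only [e3] at h1
  obtain ⟨h2, ⟨K, h3⟩, h4⟩ := h1
  have h5 := h4 (mol p q)
  rw [fn_mol h3] at h5
  rw [map_sub, map_smul, fn_mol hK, ← h5, smul_eq_mul]
  ring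

/-- Every real normed space of finite dimension at least `2` is Lipschitz-free rigid. -/
theorem rigid (h : 2 ≤ Module.finrank ℝ E) : LipFreeRigid E := by
  have hfin : Module.finrank ℝ (E →L[ℝ] ℝ) = Module.finrank ℝ E := by
    rw [← Subspace.dual_finrank_eq (K := ℝ) (V := E)]
    exact (LinearMap.toContinuousLinearMap (𝕜 := ℝ) (E := E) (F' := ℝ)).finrank_eq.symm
  have hdim : ∀ ξ : E →L[ℝ] ℝ, ξ ≠ 0 → ∃ η, Ind ξ η := by
    intro ξ hξ
    have hlt : Submodule.span ℝ {ξ} < ⊤ := by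
      apply Submodule.lt_top_of_finrank_lt_finrank
      rw [finrank_span_singleton hξ, hfin]
      omega
    obtain ⟨η, -, hη⟩ := SetLike.exists_of_lt hlt
    refine ⟨η, ind_of_not hξ fun a ha => hη ?_⟩
    rw [ha]
    exact Submodule.smul_mem _ _ (Submodule.mem_span_singleton_self ξ)
  have _ : Nontrivial E := Module.nontrivial_of_finrank_pos (R := ℝ) (by omega)
  have hne : ∃ ξ : E →L[ℝ] ℝ, ξ ≠ 0 := by
    have _ : Nontrivial (E →L[ℝ] ℝ) := Module.nontrivial_of_finrank_pos (R := ℝ) (by omega)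
    exact exists_ne 0
  apply rigid_of_psi
  · intro p
    obtain ⟨q, hq⟩ := exists_ne p
    exact ⟨q, hq.symm⟩
  · exact exists_psi hdim hne

end

end Pool.Agent.Helper72.LN
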